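import Mathlib

set_option autoImplicit false

/-!
# Primitive elements of free groups and word lengths over arbitrary finite generating sets
-/

namespace Pool.Agent.Lib.Pee92d8

open scoped ENNReal

/-- An element of a free group is primitive if it belongs to some free basis. -/
def IsPrimitive {α : Type} (g : FreeGroup α) : Prop :=
  ∃ (ι : Type) (b : FreeGroupBasis ι (FreeGroup α)) (i : ι), b i = g

/-- `|g|_S`: the least length of a word over the alphabet `S ∪ S⁻¹` with product `g`. -/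
noncomputable def wordLen {G : Type} [Group G] (S : Set G) (g : G) : ℕ :=
  sInf {n | ∃ W : List G, (∀ x ∈ W, x ∈ S ∨ x⁻¹ ∈ S) ∧ W.prod = g ∧ W.length = n}

/-- `‖c‖_S`: the least `|h|_S` over the elements `h` of the conjugacy class `c`. -/
noncomputable def conjLen {G : Type} [Group G] (S : Set G) (c : ConjClasses G) : ℕ :=
  sInf {n | ∃ h : G, ConjClasses.mk h = c ∧ wordLen S h = n}

/-- `C^S_{k,N}`: the conjugacy classes of primitive elements of `F_k` with `‖c‖_S = N`. -/
def primClasses (k : ℕ) (S : Set (FreeGroup (Fin k))) (N : ℕ) :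
    Set (ConjClasses (FreeGroup (Fin k))) :=
  {c | (∃ g, IsPrimitive g ∧ ConjClasses.mk g = c) ∧ conjLen S c = N}

/-- `γ(S) = limsup_N |C^S_{k,N}|^{1/N}`. -/
noncomputable def gamma (k : ℕ) (S : Set (FreeGroup (Fin k))) : ℝ≥0∞ :=
  Filter.limsup (fun N : ℕ => ((primClasses k S N).encard : ℝ≥0∞) ^ ((1 : ℝ) / N)) Filter.atTop

/-- `P^S_{k,N}`: the primitive elements of `F_k` with `|g|_S = N`. -/
def primElts (k : ℕ) (S : Set (FreeGroup (Fin k))) (N : ℕ) : Set (FreeGroup (Fin k)) :=
  {g | IsPrimitive g ∧ wordLen S g = N}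

/-- `ρ(S) = limsup_N |P^S_{k,N}|^{1/N}`. -/
noncomputable def rhoGrowth (k : ℕ) (S : Set (FreeGroup (Fin k))) : ℝ≥0∞ :=
  Filter.limsup (fun N : ℕ => ((primElts k S N).encard : ℝ≥0∞) ^ ((1 : ℝ) / N)) Filter.atTop

end Pool.Agent.Lib.Pee92d8
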