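import Mathlib

set_option autoImplicit false

namespace Pool.Agent.Lib.Pee92d8

open FreeGroup List

section
variable {α : Type*} [DecidableEq α]

omit [DecidableEq α] in
theorem red_of_infix {L L' : List (α × Bool)} (h : IsReduced L') (hi : L <:+: L') :
    IsReduced L := by
  obtain ⟨s, t, rfl⟩ := hi
  exact (List.isChain_append.1 (List.isChain_append.1 h).1).2.1

theorem toWord_mk_of_isReduced {L : List (α × Bool)} (h : IsReduced L) : (mk L).toWord = L := by
  rw [toWord_mk, h.reduce_eq]

omit [DecidableEq α] in
theorem mk_append (L₁ L₂ : List (α × Bool)) : mk (L₁ ++ L₂) = mk L₁ * mk L₂ := by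
  rw [mul_mk]

theorem isReduced_invRev {L : List (α × Bool)} (h : IsReduced L) : IsReduced (invRev L) := by
  rw [isReduced_iff_reduce_eq] at h ⊢
  rw [reduce_invRev, h]

theorem isReduced_invRev_iff {L : List (α × Bool)} : IsReduced (invRev L) ↔ IsReduced L :=
  ⟨fun h => by simpa using isReduced_invRev h, isReduced_invRev⟩

/-- Fundamental cancellation lemma. -/
theorem mul_decomp_aux (n : ℕ) : ∀ X Y : List (α × Bool), X.length ≤ n → IsReduced X → IsReduced Y →
    ∃ A B C : List (α × Bool), X = A ++ C ∧ Y = invRev C ++ B ∧ IsReduced (A ++ B) := by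
  induction n with
  | zero =>
    intro X Y hX _ hY
    have : X = [] := List.length_eq_zero_iff.1 (by omega)
    subst this
    exact ⟨[], Y, [], rfl, by simp, by simpa using hY⟩
  | succ n ih =>
    intro X Y hX hXr hYr
    rcases List.eq_nil_or_concat X with rfl | ⟨X', a, rfl⟩
    · exact ⟨[], Y, [], rfl, by simp, by simpa using hYr⟩
    · rcases Y with _ | ⟨b, Y'⟩
      · exact ⟨X'.concat a, [], [], by simp, by simp, by simpa using hXr⟩
      · by_cases hab : b = (a.1, !a.2)
        · have hX'r : IsReduced X' := red_of_infix hXr ⟨[], [a], by simp⟩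
          have hY'r : IsReduced Y' := red_of_infix hYr ⟨[b], [], by simp⟩
          obtain ⟨A, B, C, h1, h2, h3⟩ := ih X' Y' (by simp at hX; omega) hX'r hY'r
          refine ⟨A, B, C ++ [a], ?_, ?_, h3⟩
          · rw [h1]; simp
          · rw [invRev_append, h2, hab]
            simp [invRev]
        · refine ⟨X'.concat a, b :: Y', [], by simp, by simp, ?_⟩
          have h1 : IsReduced ([a] ++ (b :: Y')) := by
            rw [List.singleton_append, isReduced_cons_cons]
            refine ⟨fun h => ?_, hYr⟩
            by_contra hne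
            apply hab
            ext
            · exact h.symm
            · cases hb : b.2 <;> cases ha : a.2 <;> simp_all
          have h2 : IsReduced (X' ++ [a]) := by simpa using hXr
          have := IsReduced.append_overlap h2 h1 (by simp)
          simpa using this

theorem mul_decomp (x y : FreeGroup α) :
    ∃ A B C : List (α × Bool), x.toWord = A ++ C ∧ y.toWord = invRev C ++ B ∧
      (x * y).toWord = A ++ B := by
  obtain ⟨A, B, C, h1, h2, h3⟩ := mul_decomp_aux _ x.toWord y.toWord le_rfl isReduced_toWord
    isReduced_toWord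
  refine ⟨A, B, C, h1, h2, ?_⟩
  have : x * y = mk (A ++ B) := by
    rw [← mk_toWord (x := x), ← mk_toWord (x := y), h1, h2, mk_append, mk_append, mk_append,
      ← inv_mk]
    group
  rw [this, toWord_mk_of_isReduced h3]

theorem toWord_mul_of_isReduced {x y : FreeGroup α} (h : IsReduced (x.toWord ++ y.toWord)) :
    (x * y).toWord = x.toWord ++ y.toWord := by
  rw [toWord_mul, h.reduce_eq]

end

end Pool.Agent.Lib.Pee92d8
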