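import Mathlib
import Pool.Agent.Lib.Pee92d8.FG
import Pool.Agent.Lib.Pee92d8.Defs

set_option autoImplicit false

namespace Pool.Agent.Lib.Pee92d8

open FreeGroup List Filter

section
variable {α : Type} [DecidableEq α]

/-- coboundary of a vertex set in the Cayley tree -/
def cob (Z : Set (FreeGroup α)) : Set (FreeGroup α × α) :=
  {p | ¬ (p.1 ∈ Z ↔ p.1 * of p.2 ∈ Z)}

/-- vertex sets with finite coboundary, infinite and coinfinite, not separating the ends of any
`c`-line -/
structure Good (c : FreeGroup α) (Z : Set (FreeGroup α)) : Prop where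
  fin : (cob Z).Finite
  inf : Z.Infinite
  coinf : Zᶜ.Infinite
  line : ∀ h, ∀ᶠ n : ℕ in atTop, (h * c ^ n ∈ Z ↔ h * (c⁻¹) ^ n ∈ Z)

theorem ball_finite [Finite α] (r : ℕ) : {w : FreeGroup α | w.norm ≤ r}.Finite := by
  have h := List.finite_length_le (α × Bool) r
  refine Set.Finite.subset (h.preimage (f := FreeGroup.toWord) (toWord_injective.injOn)) ?_
  intro w hw
  exact hw

theorem head_mul {w x : FreeGroup α} (h : x.norm < w.norm) :
    (w * x).toWord.head? = w.toWord.head? := by
  obtain ⟨A, B, C, h1, h2, h3⟩ := mul_decomp w x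
  have hl1 : w.norm = A.length + C.length := by
    unfold FreeGroup.norm; rw [h1, List.length_append]
  have hl2 : x.norm = C.length + B.length := by
    unfold FreeGroup.norm; rw [h2, List.length_append, invRev_length]
  have hA : A ≠ [] := by
    rintro rfl
    simp at hl1; omega
  rw [h3, h1, List.head?_append_of_ne_nil _ hA, List.head?_append_of_ne_nil _ hA]

theorem head_mul_letter {w : FreeGroup α} {i j : α} (hij : i ≠ j) (s : Bool) :
    (w * mk [(i, s)]).toWord.head? = some (j, true) ↔ w.toWord.head? = some (j, true) := by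
  obtain ⟨A, B, C, h1, h2, h3⟩ := mul_decomp w (mk [(i, s)])
  have h4 : (mk [(i, s)]).toWord = [(i, s)] := toWord_mk_of_isReduced IsReduced.singleton
  rw [h4] at h2
  rw [h3, h1]
  rcases C with _ | ⟨c, C⟩
  · simp only [invRev_empty, List.nil_append] at h2
    rw [← h2, List.append_nil]
    rcases A with _ | ⟨a, A⟩
    · simp [hij]
    · simp
  · have hl := congrArg List.length h2
    simp only [List.length_nil, List.length_append, invRev_length, List.length_cons] at hl
    have hC : C = [] := List.length_eq_zero_iff.1 (by omega)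
    have hB : B = [] := List.length_eq_zero_iff.1 (by omega)
    subst hC; subst hB
    simp only [invRev, List.map_cons, List.map_nil, List.reverse_cons, List.reverse_nil,
      List.nil_append, List.append_nil, List.cons.injEq, and_true, Prod.mk.injEq] at h2
    rcases A with _ | ⟨a, A⟩
    · have : c.1 ≠ j := by rw [← h2.1]; exact hij
      simp only [List.append_nil, List.head?_nil, List.nil_append, List.head?_cons]
      constructor
      · intro h; exact absurd h (by simp)
      · intro h
        exfalso; apply this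
        simp only [Option.some.injEq] at h
        rw [h]
    · simp

omit [DecidableEq α] in
theorem exists_good [Finite α] [Nontrivial α] {c : FreeGroup α} (hc : IsPrimitive c) :
    ∃ Z, Good c Z := by
  classical
  obtain ⟨ι, b, i, rfl⟩ := hc
  have e : α ≃ ι := Equiv.ofFreeGroupEquiv b.repr
  have : Nontrivial ι := e.symm.nontrivial
  have : Finite ι := Finite.of_equiv α e
  obtain ⟨j, hj⟩ := exists_ne i
  set Z : Set (FreeGroup α) := {h | (b.repr h).toWord.head? = some (j, true)} with hZ
  have hmul : ∀ h : FreeGroup α, (h * b i ∈ Z ↔ h ∈ Z) := by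
    intro h
    change (b.repr (h * b i)).toWord.head? = some (j, true) ↔ (b.repr h).toWord.head? = some (j, true)
    rw [_root_.map_mul, FreeGroupBasis.repr_apply_coe]
    exact head_mul_letter hj.symm true
  have hmul' : ∀ h : FreeGroup α, (h * (b i)⁻¹ ∈ Z ↔ h ∈ Z) := by
    intro h
    rw [← hmul (h * (b i)⁻¹), inv_mul_cancel_right]
  have hpow : ∀ (h : FreeGroup α) (n : ℕ), (h * (b i) ^ n ∈ Z ↔ h ∈ Z) := by
    intro h n
    induction n with
    | zero => simp
    | succ n ih => rw [pow_succ, ← mul_assoc, hmul, ih]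
  have hpow' : ∀ (h : FreeGroup α) (n : ℕ), (h * ((b i)⁻¹) ^ n ∈ Z ↔ h ∈ Z) := by
    intro h n
    induction n with
    | zero => simp
    | succ n ih => rw [pow_succ, ← mul_assoc, hmul', ih]
  refine ⟨Z, ?_, ?_, ?_, ?_⟩
  · -- finite coboundary
    have h1 : ∀ a : α, {h : FreeGroup α | ¬ (h ∈ Z ↔ h * of a ∈ Z)}.Finite := by
      intro a
      have hb := ball_finite (α := ι) (b.repr (of a)).norm
      refine (hb.preimage (f := b.repr) (b.repr.injective.injOn)).subset ?_
      intro h hh
      by_contra hcon
      apply hh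
      change (b.repr h).toWord.head? = some (j, true) ↔ (b.repr (h * of a)).toWord.head? = some (j, true)
      rw [_root_.map_mul, head_mul (by simpa using hcon)]
    have h2 : cob Z = ⋃ a : α, (fun h => (h, a)) '' {h : FreeGroup α | ¬ (h ∈ Z ↔ h * of a ∈ Z)} := by
      ext ⟨h, a⟩
      simp [cob]
    rw [h2]
    exact Set.finite_iUnion (fun a => (h1 a).image _)
  · refine Set.infinite_of_injective_forall_mem (f := fun n : ℕ => (b j) ^ (n + 1)) ?_ ?_
    · intro n m hnm
      have := congrArg (fun x => (b.repr x).toWord.length) hnm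
      simpa [_root_.map_pow, FreeGroupBasis.repr_apply_coe, toWord_of_pow] using this
    · intro n
      change (b.repr ((b j) ^ (n + 1))).toWord.head? = some (j, true)
      rw [_root_.map_pow, FreeGroupBasis.repr_apply_coe, toWord_of_pow, List.replicate_succ]
      rfl
  · refine Set.infinite_of_injective_forall_mem (f := fun n : ℕ => (b i) ^ n) ?_ ?_
    · intro n m hnm
      have := congrArg (fun x => (b.repr x).toWord.length) hnm
      simpa [_root_.map_pow, FreeGroupBasis.repr_apply_coe, toWord_of_pow] using this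
    · intro n hn
      have hn' : (1 : FreeGroup α) * (b i) ^ n ∈ Z := by rw [one_mul]; exact hn
      rw [hpow] at hn'
      change (b.repr 1).toWord.head? = some (j, true) at hn'
      simp at hn'
  · intro h
    refine Filter.Eventually.of_forall (fun n => ?_)
    rw [hpow, hpow']

/-- `e` is an outward direction at `q` -/
def Outw (q : FreeGroup α) (e : α × Bool) : Prop := IsReduced (q.toWord ++ [e])

theorem outw_toWord {q : FreeGroup α} {e : α × Bool} (h : Outw q e) :
    (q * mk [e]).toWord = q.toWord ++ [e] := by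
  have h1 : (mk [e]).toWord = [e] := toWord_mk_of_isReduced IsReduced.singleton
  have := toWord_mul_of_isReduced (x := q) (y := mk [e]) (by rw [h1]; exact h)
  rw [this, h1]

theorem not_outw {q : FreeGroup α} {e : α × Bool} (h : ¬ Outw q e) :
    q.toWord = (q * mk [e]).toWord ++ [(e.1, !e.2)] := by
  obtain ⟨A, B, C, h1, h2, h3⟩ := mul_decomp q (mk [e])
  have h4 : (mk [e]).toWord = [e] := toWord_mk_of_isReduced IsReduced.singleton
  rw [h4] at h2
  rcases C with _ | ⟨c, C⟩
  · exfalso
    apply h
    simp only [invRev_empty, List.nil_append] at h2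
    rw [List.append_nil] at h1
    unfold Outw
    rw [h1, h2, ← h3]
    exact isReduced_toWord
  · have hl := congrArg List.length h2
    simp only [List.length_nil, List.length_append, invRev_length, List.length_cons] at hl
    have hC : C = [] := List.length_eq_zero_iff.1 (by omega)
    have hB : B = [] := List.length_eq_zero_iff.1 (by omega)
    subst hC; subst hB
    rw [h1, h3]
    simp only [invRev, List.map_cons, List.map_nil, List.reverse_cons, List.reverse_nil,
      List.nil_append, List.append_nil, List.cons.injEq, and_true] at h2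
    rw [h2]
    simp

theorem not_outw_unique {q : FreeGroup α} {e f : α × Bool} (he : ¬ Outw q e) (hf : ¬ Outw q f) :
    e = f := by
  have h1 := not_outw he
  have h2 := not_outw hf
  rw [h1] at h2
  have h3 := List.append_inj_right' h2 rfl
  simp only [List.cons.injEq, Prod.mk.injEq, and_true] at h3
  refine Prod.ext h3.1 ?_
  have := h3.2
  revert this
  cases e.2 <;> cases f.2 <;> simp


theorem subtree {Z : Set (FreeGroup α)} {R : ℕ}
    (hR : ∀ (x : FreeGroup α) (e : α × Bool), R < max x.norm (x * mk [e]).norm →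
      (x ∈ Z ↔ x * mk [e] ∈ Z))
    {q : FreeGroup α} {e : α × Bool} (hq : R ≤ q.norm + 1) (w : List (α × Bool))
    (hw : IsReduced (q.toWord ++ e :: w)) : q * mk (e :: w) ∈ Z ↔ q * mk [e] ∈ Z := by
  induction w using List.reverseRecOn with
  | nil => rfl
  | append_singleton w f ih =>
    have hw' : IsReduced (q.toWord ++ e :: w) := red_of_infix hw ⟨[], [f], by simp⟩
    rw [← ih hw']
    have h1 : q * mk (e :: w) = mk (q.toWord ++ e :: w) := by
      rw [mk_append, mk_toWord]
    have h2 : q * mk (e :: (w ++ [f])) = q * mk (e :: w) * mk [f] := by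
      rw [mul_assoc, ← mk_append]; simp
    have h3 : q * mk (e :: (w ++ [f])) = mk (q.toWord ++ e :: (w ++ [f])) := by
      rw [mk_append, mk_toWord]
    rw [h2]
    refine (hR _ _ ?_).symm
    rw [← h2, h3]
    refine lt_max_of_lt_right ?_
    unfold FreeGroup.norm
    rw [toWord_mk_of_isReduced hw]
    unfold FreeGroup.norm at hq
    simp only [List.length_append, List.length_cons, List.length_nil]
    omega

theorem toWord_pow_of_cyc {c : FreeGroup α} (hc : IsCyclicallyReduced c.toWord) (n : ℕ) :
    (c ^ n).toWord = (replicate n c.toWord).flatten := by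
  rw [toWord_pow, (hc.flatten_replicate n).isReduced.reduce_eq]

theorem toWord_pow_add {c : FreeGroup α} (hc : IsCyclicallyReduced c.toWord) (m n : ℕ) :
    (c ^ (m + n)).toWord = (c ^ m).toWord ++ (c ^ n).toWord := by
  rw [toWord_pow_of_cyc hc, toWord_pow_of_cyc hc, toWord_pow_of_cyc hc, List.replicate_add,
    List.flatten_append]

theorem turn {c : FreeGroup α} (hc : IsCyclicallyReduced c.toWord) {Z : Set (FreeGroup α)}
    (hline : ∀ h, ∀ᶠ n : ℕ in atTop, (h * c ^ n ∈ Z ↔ h * (c⁻¹) ^ n ∈ Z)) {R : ℕ}
    (hR : ∀ (x : FreeGroup α) (e : α × Bool), R < max x.norm (x * mk [e]).norm →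
      (x ∈ Z ↔ x * mk [e] ∈ Z))
    {q : FreeGroup α} (hq : R ≤ q.norm + 1) {i j : α}
    (hi : Outw q (i, false)) (hj : Outw q (j, true))
    (hpat : ∃ m : ℕ, [(i, true), (j, true)] <:+: (replicate m c.toWord).flatten) :
    (q * mk [(i, false)] ∈ Z ↔ q * mk [(j, true)] ∈ Z) := by
  obtain ⟨m, A, B, hm⟩ := hpat
  rw [← toWord_pow_of_cyc hc] at hm
  set h : FreeGroup α := q * (mk (A ++ [(i, true)]))⁻¹ with hh
  obtain ⟨n, hn, hn2⟩ := ((hline h).and (eventually_ge_atTop m)).exists
  obtain ⟨r, rfl⟩ := Nat.exists_eq_add_of_le hn2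
  -- positive end
  have hp : h * c ^ (m + r) = q * mk ((j, true) :: (B ++ (c ^ r).toWord)) := by
    have h1 : c ^ (m + r) = mk (A ++ [(i, true)]) * mk ((j, true) :: (B ++ (c ^ r).toWord)) := by
      rw [← mk_append]
      rw [← mk_toWord (x := c ^ (m + r)), toWord_pow_add hc, ← hm]
      simp
    rw [hh, h1]; group
  have hpr : IsReduced (q.toWord ++ (j, true) :: (B ++ (c ^ r).toWord)) := by
    have h1 : IsReduced ([(j, true)] ++ (B ++ (c ^ r).toWord)) := by
      refine red_of_infix (isReduced_toWord (x := c ^ (m + r))) ?_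
      rw [toWord_pow_add hc, ← hm]
      exact ⟨A ++ [(i, true)], [], by simp⟩
    have := IsReduced.append_overlap hj h1 (by simp)
    simpa using this
  have hn' : h * (c⁻¹) ^ (m + r) =
      q * mk ((i, false) :: invRev ((c ^ (m + r)).toWord ++ A)) := by
    have h1 : (i, false) :: invRev ((c ^ (m + r)).toWord ++ A) =
        invRev ((c ^ (m + r)).toWord ++ (A ++ [(i, true)])) := by
      rw [← List.append_assoc, invRev_append (L₁ := (c ^ (m + r)).toWord ++ A)]
      simp [invRev]
    rw [h1, ← inv_mk, mk_append, mk_toWord, hh, inv_pow]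
    group
  have hnr : IsReduced (q.toWord ++ (i, false) :: invRev ((c ^ (m + r)).toWord ++ A)) := by
    have h0 : IsReduced ((c ^ (m + r)).toWord ++ (A ++ [(i, true)])) := by
      refine red_of_infix (isReduced_toWord (x := c ^ (m + r + m))) ?_
      rw [toWord_pow_add hc (m + r) m, ← hm]
      exact ⟨[], [(j, true)] ++ B, by simp⟩
    have h1 : IsReduced ([(i, false)] ++ invRev ((c ^ (m + r)).toWord ++ A)) := by
      have := isReduced_invRev h0
      rw [← List.append_assoc, invRev_append (L₁ := (c ^ (m + r)).toWord ++ A)] at this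
      simpa [invRev] using this
    have := IsReduced.append_overlap hi h1 (by simp)
    simpa using this
  rw [hp, hn', subtree hR hq _ hpr, subtree hR hq _ hnr] at hn
  exact hn.symm

omit [DecidableEq α] in
theorem mul_mk_false_of (x : FreeGroup α) (i : α) : x * mk [(i, false)] * of i = x := by
  have : (mk [(i, false)] : FreeGroup α) = (of i)⁻¹ := rfl
  rw [this]; group

/-- If all products `x_i x_j` occur in powers of the cyclically reduced `c`, then `c` is not
primitive. -/
theorem block [Finite α] [Nontrivial α] {c : FreeGroup α} (hc : IsCyclicallyReduced c.toWord)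
    (hpat : ∀ i j : α, ∃ m : ℕ, [(i, true), (j, true)] <:+: (replicate m c.toWord).flatten) :
    ¬ IsPrimitive c := by
  classical
  intro hprim
  have hc1 : c ≠ 1 := by
    rintro rfl
    obtain ⟨i⟩ : Nonempty α := inferInstance
    obtain ⟨m, hm⟩ := hpat i i
    simp at hm
  have hcinj : Function.Injective (fun n : ℕ => c ^ n) := by
    have : ¬ IsOfFinOrder c := by
      rw [isOfFinOrder_iff_eq_one]
      exact hc1
    exact injective_pow_iff_not_isOfFinOrder.2 this
  have hex : ∃ n : ℕ, ∃ Z, Good c Z ∧ (cob Z).ncard = n := by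
    obtain ⟨Z, hZ⟩ := exists_good hprim
    exact ⟨_, Z, hZ, rfl⟩
  obtain ⟨Z, hZ, hZn⟩ := Nat.find_spec hex
  have hmin : ∀ Z', Good c Z' → (cob Z).ncard ≤ (cob Z').ncard := by
    intro Z' hZ'
    rw [hZn]
    exact Nat.find_min' hex ⟨Z', hZ', rfl⟩
  -- the coboundary is nonempty
  have hne : (cob Z).Nonempty := by
    rw [Set.nonempty_iff_ne_empty]
    intro hemp
    have hstep : ∀ (x : FreeGroup α) (i : α), x ∈ Z ↔ x * of i ∈ Z := by
      intro x i
      by_contra hcon
      have : (x, i) ∈ cob Z := hcon
      rw [hemp] at this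
      exact this
    have hall : ∀ x : FreeGroup α, ∀ y, (y * x ∈ Z ↔ y ∈ Z) := by
      intro x
      induction x using FreeGroup.induction_on with
      | C1 => intro y; rw [mul_one]
      | of i => intro y; exact (hstep y i).symm
      | inv_of i _ => intro y; rw [hstep (y * (of i)⁻¹) i]; rw [inv_mul_cancel_right]
      | mul a b ha hb => intro y; rw [← mul_assoc, hb, ha]
    by_cases h1 : (1 : FreeGroup α) ∈ Z
    · apply hZ.coinf
      have : Zᶜ = ∅ := by
        ext x
        simp only [Set.mem_compl_iff, Set.mem_empty_iff_false, iff_false, not_not]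
        have := (hall x 1).2 h1
        rwa [one_mul] at this
      rw [this]; exact Set.finite_empty
    · apply hZ.inf
      have : Z = ∅ := by
        ext x
        simp only [Set.mem_empty_iff_false, iff_false]
        intro hx
        apply h1
        have := hall x 1
        rw [one_mul] at this
        exact this.1 hx
      rw [this]; exact Set.finite_empty
  obtain ⟨p, hp, hpmax⟩ := Set.exists_max_image (cob Z)
    (fun p => max p.1.norm (p.1 * of p.2).norm) hZ.fin hne
  set R := max p.1.norm (p.1 * of p.2).norm with hRdef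
  have hR : ∀ (x : FreeGroup α) (e : α × Bool), R < max x.norm (x * mk [e]).norm →
      (x ∈ Z ↔ x * mk [e] ∈ Z) := by
    rintro x ⟨i, s⟩ hx
    by_contra hcon
    cases s with
    | true =>
      have h1 : (x, i) ∈ cob Z := hcon
      have := hpmax _ h1
      simp only at this
      have h2 : (mk [(i, true)] : FreeGroup α) = of i := rfl
      rw [h2] at hx
      omega
    | false =>
      have h1 : (x * mk [(i, false)], i) ∈ cob Z := by
        change ¬ (x * mk [(i, false)] ∈ Z ↔ x * mk [(i, false)] * of i ∈ Z)
        rw [mul_mk_false_of]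
        intro h; exact hcon h.symm
      have := hpmax _ h1
      simp only at this
      rw [mul_mk_false_of, max_comm] at this
      omega
  -- extremal vertex
  obtain ⟨q, d, hd, hqR, hqd⟩ : ∃ (q : FreeGroup α) (d : α × Bool), Outw q d ∧ R = q.norm + 1 ∧
      ¬ (q ∈ Z ↔ q * mk [d] ∈ Z) := by
    by_cases ho : Outw p.1 (p.2, true)
    · refine ⟨p.1, (p.2, true), ho, ?_, hp⟩
      have h1 := outw_toWord ho
      have h2 : (p.1 * of p.2).norm = p.1.norm + 1 := by
        unfold FreeGroup.norm
        have : (p.1 * of p.2) = p.1 * mk [(p.2, true)] := rfl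
        rw [this, h1]; simp
      rw [hRdef, h2]
      exact max_eq_right (by omega)
    · have h1 := not_outw ho
      have h3 : (p.1 * of p.2) = p.1 * mk [(p.2, true)] := rfl
      have h2 : p.1.norm = (p.1 * of p.2).norm + 1 := by
        unfold FreeGroup.norm
        rw [h3, h1]; simp
      refine ⟨p.1 * of p.2, (p.2, false), ?_, ?_, ?_⟩
      · unfold Outw
        rw [h3]
        have := isReduced_toWord (x := p.1)
        rw [h1] at this
        exact this
      · rw [hRdef, ← h2]
        exact max_eq_left (by omega)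
      · have h4 : p.1 * of p.2 * mk [(p.2, false)] = p.1 := by
          have : (mk [(p.2, false)] : FreeGroup α) = (of p.2)⁻¹ := rfl
          rw [this]; group
        rw [h4]
        intro h; exact hp h.symm
  have hq : R ≤ q.norm + 1 := hqR.le
  -- opposite sign outward letters are on the same side
  have hturn : ∀ i j : α, Outw q (i, false) → Outw q (j, true) →
      (q * mk [(i, false)] ∈ Z ↔ q * mk [(j, true)] ∈ Z) :=
    fun i j hi hj => turn hc hZ.line hR hq hi hj (hpat i j)
  -- all outward letters are separated from q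
  have hall : ∀ e, Outw q e → ¬ (q ∈ Z ↔ q * mk [e] ∈ Z) := by
    obtain ⟨i₀, i₁, hi01⟩ := exists_pair_ne α
    -- there is an outward letter of each sign
    have hsign : ∀ s : Bool, ∃ i, Outw q (i, s) := by
      intro s
      by_contra hcon
      push Not at hcon
      have := not_outw_unique (hcon i₀) (hcon i₁)
      simp at this
      exact hi01 this
    have hopp : ∀ i j s, Outw q (i, s) → Outw q (j, !s) →
        (q * mk [(i, s)] ∈ Z ↔ q * mk [(j, !s)] ∈ Z) := by
      intro i j s hi hj
      cases s with
      | false => exact hturn i j hi hj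
      | true => exact (hturn j i hj hi).symm
    have hsame : ∀ e f, Outw q e → Outw q f → (q * mk [e] ∈ Z ↔ q * mk [f] ∈ Z) := by
      rintro ⟨i, s⟩ ⟨j, t⟩ hi hj
      by_cases hst : t = !s
      · subst hst; exact hopp i j s hi hj
      · have : t = s := by cases t <;> cases s <;> simp_all
        subst this
        obtain ⟨k, hk⟩ := hsign (!t)
        rw [hopp i k t hi hk, hopp j k t hj hk]
    intro e he
    rw [← hsame d e hd he]
    exact hqd
  -- toggle q
  let Z' : Set (FreeGroup α) := {x | ¬ (x ∈ Z ↔ x = q)}
  have hZ'ne : ∀ x, x ≠ q → (x ∈ Z' ↔ x ∈ Z) := by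
    intro x hx
    change ¬ (x ∈ Z ↔ x = q) ↔ x ∈ Z
    simp [hx]
  have hZ'q : q ∈ Z' ↔ q ∉ Z := by
    change ¬ (q ∈ Z ↔ q = q) ↔ q ∉ Z
    simp
  have hmkne : ∀ e : α × Bool, q * mk [e] ≠ q := by
    intro e h
    have h1 : (mk [e] : FreeGroup α) = 1 := by
      have := mul_eq_left.1 h
      exact this
    have h2 := congrArg FreeGroup.toWord h1
    rw [toWord_mk_of_isReduced IsReduced.singleton, toWord_one] at h2
    simp at h2
  let E : α × Bool → FreeGroup α × α := fun e => match e with
    | (i, true) => (q, i)
    | (i, false) => (q * mk [(i, false)], i)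
  have hEcob : ∀ e, Outw q e → E e ∈ cob Z := by
    rintro ⟨i, s⟩ he
    have h1 := hall _ he
    cases s with
    | true => exact h1
    | false =>
      change ¬ (q * mk [(i, false)] ∈ Z ↔ q * mk [(i, false)] * of i ∈ Z)
      rw [mul_mk_false_of]
      intro h; exact h1 h.symm
  have hEcob' : ∀ e, Outw q e → E e ∉ cob Z' := by
    rintro ⟨i, s⟩ he
    have h1 := hall _ he
    cases s with
    | true =>
      change ¬ ¬ (q ∈ Z' ↔ q * mk [(i, true)] ∈ Z')
      rw [hZ'q, hZ'ne _ (hmkne _)]
      tauto
    | false =>
      change ¬ ¬ (q * mk [(i, false)] ∈ Z' ↔ q * mk [(i, false)] * of i ∈ Z')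
      rw [mul_mk_false_of, hZ'q, hZ'ne _ (hmkne _)]
      tauto
  have hsub : ∀ x ∈ cob Z', x ∉ cob Z → ∃ e, ¬ Outw q e ∧ x = E e := by
    rintro ⟨x, i⟩ hx hx'
    have hx1 : ¬ (x ∈ Z' ↔ x * of i ∈ Z') := hx
    have hx2 : (x ∈ Z ↔ x * of i ∈ Z) := by
      by_contra hcon; exact hx' hcon
    by_cases h1 : x = q
    · refine ⟨(i, true), ?_, by rw [h1]⟩
      intro ho
      exact hx' (by rw [h1]; exact hEcob (i, true) ho)
    · by_cases h2 : x * of i = q
      · have h3 : x = q * mk [(i, false)] := by
          have : (mk [(i, false)] : FreeGroup α) = (of i)⁻¹ := rfl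
          rw [this, ← h2]; group
        refine ⟨(i, false), ?_, by rw [h3]⟩
        intro ho
        exact hx' (by rw [h3]; exact hEcob (i, false) ho)
      · exfalso
        apply hx1
        rw [hZ'ne _ h1, hZ'ne _ h2]; exact hx2
  obtain ⟨e₁, e₂, he₁, he₂, hEne⟩ : ∃ e₁ e₂, Outw q e₁ ∧ Outw q e₂ ∧ E e₁ ≠ E e₂ := by
    obtain ⟨i₀, i₁, hi01⟩ := exists_pair_ne α
    by_cases h0 : Outw q (i₀, true)
    · by_cases h1 : Outw q (i₁, true)
      · refine ⟨_, _, h0, h1, ?_⟩
        intro h
        have := congrArg Prod.snd h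
        exact hi01 this
      · refine ⟨(i₀, true), (i₀, false), h0, ?_, ?_⟩
        · by_contra h2
          have := not_outw_unique h1 h2
          simp at this
        · intro h
          have := congrArg Prod.fst h
          exact hmkne _ this.symm
    · refine ⟨(i₁, true), (i₀, false), ?_, ?_, ?_⟩
      · by_contra h2
        have := not_outw_unique h0 h2
        simp at this
        exact hi01 this
      · by_contra h2
        have := not_outw_unique h0 h2
        simp at this
      · intro h
        have := congrArg Prod.fst h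
        exact hmkne _ this.symm
  have hUfin : {x | ∃ e, ¬ Outw q e ∧ x = E e}.Finite ∧
      {x | ∃ e, ¬ Outw q e ∧ x = E e}.ncard ≤ 1 := by
    have hss : {x | ∃ e, ¬ Outw q e ∧ x = E e}.Subsingleton := by
      rintro x ⟨e, he, rfl⟩ y ⟨f, hf, rfl⟩
      rw [not_outw_unique he hf]
    have hfs := hss.finite.to_subtype
    exact ⟨hss.finite, Set.ncard_le_one_iff_subsingleton.2 hss⟩
  have hsub2 : cob Z' ⊆ (cob Z \ {E e₁, E e₂}) ∪ {x | ∃ e, ¬ Outw q e ∧ x = E e} := by
    intro x hx
    by_cases hx' : x ∈ cob Z
    · left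
      refine ⟨hx', ?_⟩
      rintro (rfl | rfl)
      · exact hEcob' _ he₁ hx
      · exact hEcob' _ he₂ hx
    · right
      exact hsub x hx hx'
  have hfin' : (cob Z').Finite := ((hZ.fin.sdiff).union hUfin.1).subset hsub2
  have hgood' : Good c Z' := by
    refine ⟨hfin', ?_, ?_, ?_⟩
    · have : Z \ {q} ⊆ Z' := by
        rintro x ⟨hx, hxq⟩
        exact (hZ'ne x hxq).2 hx
      exact (hZ.inf.sdiff (Set.finite_singleton q)).mono this
    · have : Zᶜ \ {q} ⊆ Z'ᶜ := by
        rintro x ⟨hx, hxq⟩ hx'
        exact hx ((hZ'ne x hxq).1 hx')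
      exact (hZ.coinf.sdiff (Set.finite_singleton q)).mono this
    · intro h
      have h1 : ∀ᶠ n : ℕ in atTop, h * c ^ n ≠ q := by
        have hinj : Function.Injective (fun n : ℕ => h * c ^ n) :=
          fun a b hab => hcinj (mul_left_cancel hab)
        have : {n : ℕ | h * c ^ n = q}.Finite := by
          refine Set.Subsingleton.finite ?_
          intro a ha b hb
          exact hinj (ha.trans hb.symm)
        have h2 := this.eventually_cofinite_notMem
        rw [Nat.cofinite_eq_atTop] at h2
        exact h2
      have h2 : ∀ᶠ n : ℕ in atTop, h * (c⁻¹) ^ n ≠ q := by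
        have hinj : Function.Injective (fun n : ℕ => h * (c⁻¹) ^ n) := by
          intro a b hab
          have := mul_left_cancel hab
          rw [inv_pow, inv_pow, inv_inj] at this
          exact hcinj this
        have : {n : ℕ | h * (c⁻¹) ^ n = q}.Finite := by
          refine Set.Subsingleton.finite ?_
          intro a ha b hb
          exact hinj (ha.trans hb.symm)
        have h2 := this.eventually_cofinite_notMem
        rw [Nat.cofinite_eq_atTop] at h2
        exact h2
      filter_upwards [h1, h2, hZ.line h] with n h3 h4 h5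
      rw [hZ'ne _ h3, hZ'ne _ h4]
      exact h5
  have hlt : (cob Z').ncard < (cob Z).ncard := by
    have h1 := Set.ncard_le_ncard hsub2 ((hZ.fin.sdiff).union hUfin.1)
    have h2 := Set.ncard_union_le (cob Z \ {E e₁, E e₂}) {x | ∃ e, ¬ Outw q e ∧ x = E e}
    have h3 : ({E e₁, E e₂} : Set _) ⊆ cob Z := by
      rintro x (rfl | rfl)
      · exact hEcob _ he₁
      · exact hEcob _ he₂
    have h4 := Set.ncard_sdiff h3 (Set.toFinite _)
    rw [Set.ncard_pair hEne] at h4
    have h5 : 2 ≤ (cob Z).ncard := by
      rw [← Set.ncard_pair hEne]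
      exact Set.ncard_le_ncard h3 hZ.fin
    have h6 := hUfin.2
    omega
  exact absurd (hmin Z' hgood') (by omega)

end

end Pool.Agent.Lib.Pee92d8
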