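import Mathlib
import Pool.Agent.Lib.Pee92d8.FG

set_option autoImplicit false

namespace Pool.Agent.Lib.Pee92d8

open FreeGroup List

section
variable {α : Type} [DecidableEq α]

/-- embed words into words over the bigger alphabet -/
def emb (l : List (α × Bool)) : List (Option α × Bool) := l.map (fun x => (some x.1, x.2))

omit [DecidableEq α] in
theorem emb_append (l l' : List (α × Bool)) : emb (l ++ l') = emb l ++ emb l' := by
  simp [emb]

omit [DecidableEq α] in
theorem emb_nil : emb ([] : List (α × Bool)) = [] := rfl

omit [DecidableEq α] in
theorem emb_length (l : List (α × Bool)) : (emb l).length = l.length := by simp [emb]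

omit [DecidableEq α] in
theorem isReduced_of_emb {l : List (α × Bool)} (h : IsReduced (emb l)) : IsReduced l := by
  unfold FreeGroup.IsReduced emb at *
  rw [List.isChain_map] at h
  simpa using h

/-- signed copies of `V` -/
def Vw (V : List (α × Bool)) (s : Bool) : List (α × Bool) := if s then V else invRev V

omit [DecidableEq α] in
theorem Vw_length (V : List (α × Bool)) (s : Bool) : (Vw V s).length = V.length := by
  cases s <;> simp [Vw]

omit [DecidableEq α] in
theorem invRev_Vw (V : List (α × Bool)) (s : Bool) : invRev (Vw V s) = Vw V (!s) := by
  cases s <;> simp [Vw]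

/-- the retraction sending the extra letter to `V` -/
def rho (V : List (α × Bool)) : FreeGroup (Option α) →* FreeGroup α :=
  FreeGroup.lift (fun o => o.elim (mk V) of)

omit [DecidableEq α] in
theorem rho_emb (V : List (α × Bool)) (l : List (α × Bool)) : rho V (mk (emb l)) = mk l := by
  unfold rho emb
  rw [FreeGroup.lift_mk, List.map_map]
  have : (mk l : FreeGroup α) = FreeGroup.lift of (mk l) := by
    rw [FreeGroup.lift_of_eq_id]; rfl
  rw [this, FreeGroup.lift_mk]
  rfl

omit [DecidableEq α] in
theorem rho_none (V : List (α × Bool)) (s : Bool) : rho V (mk [(none, s)]) = mk (Vw V s) := by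
  unfold rho
  rw [FreeGroup.lift_mk]
  cases s <;> simp [Vw, inv_mk]

/-- Hypotheses on the word `V`: it is positive and long subwords determine their position. -/
structure VHyp (V : List (α × Bool)) (L₀ p b₀ : ℕ) : Prop where
  pos : ∀ x ∈ V, x.2 = true
  piece : ∀ i j : ℕ, i + (p + 1) ≤ V.length → j + (p + 1) ≤ V.length →
    (V.drop i).take (p + 1) = (V.drop j).take (p + 1) → i = j
  hb1 : L₀ + p ≤ b₀
  hb2 : 2 * p + 1 ≤ b₀

omit [DecidableEq α] in
theorem invRev_take (L : List (α × Bool)) (n : ℕ) :
    invRev (L.take n) = (invRev L).drop (L.length - n) := by
  conv_rhs => rw [← List.take_append_drop n L, invRev_append]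
  rw [List.drop_append_of_le_length (by simp)]
  rw [List.drop_eq_nil_of_le (by simp)]
  simp

omit [DecidableEq α] in
theorem invRev_drop (L : List (α × Bool)) (n : ℕ) :
    invRev (L.drop n) = (invRev L).take (L.length - n) := by
  conv_rhs => rw [← List.take_append_drop n L, invRev_append]
  rw [List.take_append_of_le_length (by simp)]
  rw [List.take_of_length_le (by simp)]

omit [DecidableEq α] in
theorem invRev_take_drop (L : List (α × Bool)) (i t : ℕ) (h : i + t ≤ L.length) :
    ((invRev L).drop i).take t = invRev ((L.drop (L.length - i - t)).take t) := by
  have h1 : (L.drop (L.length - i - t)).take t = (L.take (L.length - i)).drop (L.length - i - t) := by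
    rw [List.take_drop]
    congr 2
    omega
  rw [h1, invRev_drop, invRev_take]
  rw [List.length_take]
  have h2 : L.length - (L.length - i) = i := by omega
  have h3 : min (L.length - i) L.length - (L.length - i - t) = t := by omega
  rw [h2, h3]

omit [DecidableEq α] in
theorem VHyp.piece' {V : List (α × Bool)} {L₀ p b₀ : ℕ} (hV : VHyp V L₀ p b₀) {s s' : Bool}
    {i j : ℕ} (hi : i + (p + 1) ≤ V.length) (hj : j + (p + 1) ≤ V.length)
    (h : ((Vw V s).drop i).take (p + 1) = ((Vw V s').drop j).take (p + 1)) : s = s' ∧ i = j := by
  have hpos : ∀ s : Bool, ∀ x ∈ Vw V s, x.2 = s := by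
    intro s x hx
    cases s with
    | true => exact hV.pos x hx
    | false =>
      simp only [Vw, Bool.false_eq_true, if_false, invRev, List.mem_reverse, List.mem_map] at hx
      obtain ⟨y, hy, rfl⟩ := hx
      simp [hV.pos y hy]
  have hss : s = s' := by
    have hne : ((Vw V s).drop i).take (p + 1) ≠ [] := by
      intro h0
      have := congrArg List.length h0
      simp only [List.length_take, List.length_drop, Vw_length, List.length_nil] at this
      omega
    obtain ⟨x, hx⟩ := List.exists_mem_of_ne_nil _ hne
    have h1 := hpos s x (List.mem_of_mem_drop (List.mem_of_mem_take hx))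
    rw [h] at hx
    have h2 := hpos s' x (List.mem_of_mem_drop (List.mem_of_mem_take hx))
    exact h1.symm.trans h2
  subst hss
  refine ⟨rfl, ?_⟩
  cases s with
  | true => exact hV.piece i j hi hj h
  | false =>
    simp only [Vw, Bool.false_eq_true, if_false] at h
    rw [invRev_take_drop _ _ _ hi, invRev_take_drop _ _ _ hj] at h
    have h1 := invRev_injective h
    have h2 := hV.piece _ _ (by omega) (by omega) h1
    omega


omit [DecidableEq α] in
theorem isReduced_of_pos {L : List (α × Bool)} (h : ∀ x ∈ L, x.2 = true) :
    FreeGroup.IsReduced L := by
  induction L with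
  | nil => exact IsReduced.nil
  | cons x L ih =>
    rcases L with _ | ⟨y, L⟩
    · exact IsReduced.singleton
    · rw [isReduced_cons_cons]
      refine ⟨fun _ => ?_, ih (fun z hz => h z (by simp [hz]))⟩
      rw [h x (by simp), h y (by simp)]

/-- Absence of nearly complete relators. -/
def NoPat (V : List (α × Bool)) (b₀ : ℕ) (U : List (Option α × Bool)) : Prop :=
  ∀ (P Q : List (Option α × Bool)) (A B C : List (α × Bool)) (s : Bool), Vw V s = A ++ B ++ C →
    U = P ++ emb (invRev A) ++ (none, s) :: (emb (invRev C) ++ Q) → b₀ < B.length

omit [DecidableEq α] in
theorem split_none (rest : List (Option α × Bool)) :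
    (∃ u : List (α × Bool), rest = emb u) ∨
      (∃ (u : List (α × Bool)) (s : Bool) (r : List (Option α × Bool)),
        rest = emb u ++ (none, s) :: r) := by
  induction rest with
  | nil => left; exact ⟨[], rfl⟩
  | cons x rest ih =>
    rcases x with ⟨_ | i, s⟩
    · right; exact ⟨[], s, rest, rfl⟩
    · rcases ih with ⟨u, rfl⟩ | ⟨u, s', r, rfl⟩
      · left; exact ⟨(i, s) :: u, rfl⟩
      · right; exact ⟨(i, s) :: u, s', r, rfl⟩

theorem window_aux {V : List (α × Bool)} {L₀ p b₀ : ℕ} (hV : VHyp V L₀ p b₀)
    {U : List (Option α × Bool)} (hU : FreeGroup.IsReduced U) (hNP : NoPat V b₀ U) (n : ℕ) :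
    ∀ (rest : List (Option α × Bool)), rest.length ≤ n → ∀ (P : List (Option α × Bool))
      (s : Bool) (a m : ℕ) (G : List (α × Bool)), a ≤ V.length → m ≤ a + p →
      U = P ++ emb (invRev ((Vw V s).take a)) ++ (none, s) :: rest →
      (rho V (mk (P ++ emb (invRev ((Vw V s).take a)) ++ [(none, s)]))).toWord =
        G ++ (Vw V s).drop m →
      ∃ (s' : Bool) (w : List (α × Bool)), w <:+: (rho V (mk U)).toWord ∧ w <:+: Vw V s' ∧
        L₀ ≤ w.length := by
  induction n with
  | zero =>
    intro rest hrest P s a m G ha hm hUe hg
    have : rest = [] := List.length_eq_zero_iff.1 (by omega)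
    subst this
    have hUe' : U = P ++ emb (invRev ((Vw V s).take a)) ++ [(none, s)] := hUe
    rw [hUe', hg]
    have hnp := hNP P [] ((Vw V s).take a) ((Vw V s).drop a) [] s (by simp) (by
      rw [hUe']; simp [emb_nil])
    rw [List.length_drop, Vw_length] at hnp
    refine ⟨s, (Vw V s).drop m, ⟨G, [], by simp⟩, (List.drop_suffix _ _).isInfix, ?_⟩
    rw [List.length_drop, Vw_length]
    have := hV.hb1
    omega
  | succ n ih =>
    intro rest hrest P s a m G ha hm hUe hg
    have hb1 := hV.hb1
    have hb2 := hV.hb2
    set g := rho V (mk (P ++ emb (invRev ((Vw V s).take a)) ++ [(none, s)])) with hgdef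
    -- general facts about the cancellation with the next run
    have hrun : ∀ (u : List (α × Bool)) (Q : List (Option α × Bool)), rest = emb u ++ Q →
        ∃ (B₁ : List (α × Bool)) (c : ℕ), u = invRev ((Vw V s).drop (V.length - c)) ++ B₁ ∧
          c ≤ V.length ∧ b₀ + c + a < V.length ∧
          (g * mk u).toWord = G ++ (((Vw V s).drop m).take (V.length - m - c)) ++ B₁ := by
      intro u Q hQ
      have hured : FreeGroup.IsReduced u := by
        apply isReduced_of_emb
        refine red_of_infix hU ⟨P ++ emb (invRev ((Vw V s).take a)) ++ [(none, s)], Q, ?_⟩
        rw [hUe, hQ]; simp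
      obtain ⟨A₁, B₁, C₁, h1, h2, h3⟩ := mul_decomp g (mk u)
      rw [toWord_mk_of_isReduced hured] at h2
      rw [hg] at h1
      have hamb : b₀ + a < V.length := by
        have hnp := hNP P rest ((Vw V s).take a) ((Vw V s).drop a) [] s (by simp) (by
          rw [hUe]; simp [emb_nil])
        rw [List.length_drop, Vw_length] at hnp
        omega
      -- the cancellation does not swallow the last copy of `V`
      have hC : C₁.length < V.length - m := by
        by_contra hcon
        push Not at hcon
        obtain ⟨X, hX⟩ : ∃ X, C₁ = X ++ (Vw V s).drop m := by
          have h4 : (Vw V s).drop m <:+ A₁ ++ C₁ := ⟨G, h1⟩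
          have h5 : C₁ <:+ A₁ ++ C₁ := ⟨A₁, rfl⟩
          obtain ⟨X, hX⟩ := List.suffix_of_suffix_length_le h4 h5 (by
            rw [List.length_drop, Vw_length]; exact hcon)
          exact ⟨X, hX.symm⟩
        rw [hX, invRev_append] at h2
        rcases le_or_gt a m with ham | ham
        · have hnp := hNP P (emb (invRev X ++ B₁) ++ Q) ((Vw V s).take a)
            (((Vw V s).drop a).take (m - a)) ((Vw V s).drop m) s (by
              have : (Vw V s).drop m = ((Vw V s).drop a).drop (m - a) := by
                rw [List.drop_drop]; congr 1; omega
              rw [this, List.append_assoc, List.take_append_drop, List.take_append_drop]) (by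
              rw [hUe, hQ, h2]; simp [emb_append])
          rw [List.length_take, List.length_drop, Vw_length] at hnp
          omega
        · have hsp : invRev ((Vw V s).take a) =
              invRev (((Vw V s).drop m).take (a - m)) ++ invRev ((Vw V s).take m) := by
            rw [← invRev_append]
            congr 1
            rw [← List.take_add]
            congr 1; omega
          have hnp := hNP (P ++ emb (invRev (((Vw V s).drop m).take (a - m))))
            (emb (invRev X ++ B₁) ++ Q) ((Vw V s).take m) [] ((Vw V s).drop m) s (by simp) (by
              rw [hUe, hQ, h2, hsp]; simp [emb_append])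
          simp at hnp
      obtain ⟨c, hc⟩ : ∃ c, C₁.length = c := ⟨_, rfl⟩
      rw [hc] at hC
      have hC₁ : C₁ = (Vw V s).drop (V.length - c) ∧
          A₁ = G ++ (((Vw V s).drop m).take (V.length - m - c)) := by
        have h4 : G ++ (((Vw V s).drop m).take (V.length - m - c)) ++ (Vw V s).drop (V.length - c) =
            A₁ ++ C₁ := by
          rw [← h1, List.append_assoc]
          congr 1
          have : (Vw V s).drop (V.length - c) = ((Vw V s).drop m).drop (V.length - m - c) := by
            rw [List.drop_drop]; congr 1; omega
          rw [this, List.take_append_drop]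
        have h5 := List.append_inj' h4 (by
          rw [List.length_drop, Vw_length, hc]; omega)
        exact ⟨h5.2.symm, h5.1.symm⟩
      have hcM : b₀ + c + a < V.length := by
        rw [hC₁.1] at h2
        rcases le_or_gt a (V.length - c) with hac | hac
        · have hnp := hNP P (emb B₁ ++ Q) ((Vw V s).take a)
            (((Vw V s).drop a).take (V.length - c - a)) ((Vw V s).drop (V.length - c)) s (by
              have : (Vw V s).drop (V.length - c) = ((Vw V s).drop a).drop (V.length - c - a) := by
                rw [List.drop_drop]; congr 1; omega
              rw [this, List.append_assoc, List.take_append_drop, List.take_append_drop]) (by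
              rw [hUe, hQ, h2]; simp [emb_append])
          rw [List.length_take, List.length_drop, Vw_length] at hnp
          omega
        · have hsp : invRev ((Vw V s).take a) =
              invRev (((Vw V s).drop (V.length - c)).take (a - (V.length - c))) ++
                invRev ((Vw V s).take (V.length - c)) := by
            rw [← invRev_append]
            congr 1
            rw [← List.take_add]
            congr 1; omega
          have hnp := hNP (P ++ emb (invRev (((Vw V s).drop (V.length - c)).take
              (a - (V.length - c))))) (emb B₁ ++ Q) ((Vw V s).take (V.length - c)) []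
              ((Vw V s).drop (V.length - c)) s (by simp) (by
              rw [hUe, hQ, h2, hsp]; simp [emb_append])
          simp at hnp
      refine ⟨B₁, c, ?_, by omega, hcM, ?_⟩
      · rw [h2, hC₁.1]
      · rw [h3, hC₁.2]
    have hTlen : ∀ c, b₀ + c + a < V.length →
        (((Vw V s).drop m).take (V.length - m - c)).length = V.length - m - c := by
      intro c hc
      rw [List.length_take, List.length_drop, Vw_length]; omega
    rcases split_none rest with ⟨u, hu⟩ | ⟨u, s', r, hu⟩
    · obtain ⟨B₁, c, h1, h2, h3, h4⟩ := hrun u [] (by rw [hu]; simp)
      refine ⟨s, ((Vw V s).drop m).take (V.length - m - c), ?_, ?_, ?_⟩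
      · have : rho V (mk U) = g * mk u := by
          rw [hgdef, hUe, hu]
          have : P ++ emb (invRev ((Vw V s).take a)) ++ (none, s) :: emb u =
              (P ++ emb (invRev ((Vw V s).take a)) ++ [(none, s)]) ++ emb u := by simp
          rw [this, mk_append, _root_.map_mul, rho_emb]
        rw [this, h4]
        exact ⟨G, B₁, rfl⟩
      · exact (List.take_prefix _ _).isInfix.trans (List.drop_suffix _ _).isInfix
      · rw [hTlen c h3]; omega
    · obtain ⟨B₁, c, h1, h2, h3, h4⟩ := hrun u ((none, s') :: r) hu
      set T := ((Vw V s).drop m).take (V.length - m - c) with hT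
      have hTl : T.length = V.length - m - c := hTlen c h3
      have hVred : ∀ s : Bool, FreeGroup.IsReduced (Vw V s) := by
        intro s
        have h5 : FreeGroup.IsReduced V := isReduced_of_pos hV.pos
        cases s with
        | true => exact h5
        | false => exact isReduced_invRev h5
      obtain ⟨A₂, B₂, C₂, k1, k2, k3⟩ := mul_decomp (g * mk u) (mk (Vw V s'))
      rw [toWord_mk_of_isReduced (hVred s')] at k2
      rw [h4] at k1
      have hrestlen : r.length ≤ n := by
        rw [hu] at hrest
        simp at hrest; omega
      have hC₂len : C₂.length ≤ V.length := by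
        have := congrArg List.length k2
        rw [Vw_length, List.length_append, invRev_length] at this
        omega
      have htake : (Vw V s').take C₂.length = invRev C₂ := by
        rw [k2, List.take_append_of_le_length (by rw [invRev_length]),
          List.take_of_length_le (by rw [invRev_length])]
      have hdrop : (Vw V s').drop C₂.length = B₂ := by
        rw [k2]
        rw [List.drop_append_of_le_length (by rw [invRev_length]),
          List.drop_eq_nil_of_le (by rw [invRev_length])]
        rfl
      have hgnext : rho V (mk (P ++ emb (invRev ((Vw V s).take a)) ++ (none, s) ::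
          (emb u ++ [(none, s')]))) = g * mk u * mk (Vw V s') := by
        have : P ++ emb (invRev ((Vw V s).take a)) ++ (none, s) :: (emb u ++ [(none, s')]) =
            (P ++ emb (invRev ((Vw V s).take a)) ++ [(none, s)]) ++ emb u ++ [(none, s')] := by simp
        rw [this, mk_append, mk_append, _root_.map_mul, _root_.map_mul, rho_emb, rho_none]
      rcases le_or_gt C₂.length B₁.length with hle | hgt
      · -- cancellation inside the run
        obtain ⟨X, hX⟩ : ∃ X, B₁ = X ++ C₂ := by
          have h4 : B₁ <:+ A₂ ++ C₂ := ⟨G ++ T, k1⟩
          have h5 : C₂ <:+ A₂ ++ C₂ := ⟨A₂, rfl⟩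
          obtain ⟨X, hX⟩ := List.suffix_of_suffix_length_le h5 h4 hle
          exact ⟨X, hX.symm⟩
        have hC₂ : C₂ = invRev ((Vw V s').take C₂.length) := by
          rw [htake, invRev_invRev]
        refine ih r hrestlen (P ++ emb (invRev ((Vw V s).take a)) ++ (none, s) ::
          emb (invRev ((Vw V s).drop (V.length - c)) ++ X)) s' C₂.length C₂.length A₂ hC₂len
          (by omega) ?_ ?_
        · rw [← hC₂, hUe, hu, h1, hX]
          simp [emb_append]
        · rw [← hC₂, hdrop]
          rw [← k3, ← hgnext, h1, hX]
          simp [emb_append]
      · -- cancellation reaches the previous copy of `V`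
        obtain ⟨Y, hY⟩ : ∃ Y, C₂ = Y ++ B₁ := by
          have h4 : B₁ <:+ A₂ ++ C₂ := ⟨G ++ T, k1⟩
          have h5 : C₂ <:+ A₂ ++ C₂ := ⟨A₂, rfl⟩
          obtain ⟨X, hX⟩ := List.suffix_of_suffix_length_le h4 h5 hgt.le
          exact ⟨X, hX.symm⟩
        have hGT : G ++ T = A₂ ++ Y := by
          rw [hY, ← List.append_assoc] at k1
          exact (List.append_inj' k1 rfl).1
        have hinv : invRev C₂ = invRev B₁ ++ invRev Y := by rw [hY, invRev_append]
        have hlenC : C₂.length = Y.length + B₁.length := by rw [hY, List.length_append]
        have htakeB : (Vw V s').take B₁.length = invRev B₁ := by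
          have : (Vw V s').take B₁.length = ((Vw V s').take C₂.length).take B₁.length := by
            rw [List.take_take]; congr 1; omega
          rw [this, htake, hinv, List.take_append_of_le_length (by rw [invRev_length]),
            List.take_of_length_le (by rw [invRev_length])]
        have hYp : Y.length ≤ p := by
          by_contra hcon
          push Not at hcon
          -- the last `p+1` letters of `Y`
          obtain ⟨Y', W, hYW, hWl⟩ : ∃ Y' W, Y = Y' ++ W ∧ W.length = p + 1 :=
            ⟨Y.take (Y.length - (p + 1)), Y.drop (Y.length - (p + 1)),
              (List.take_append_drop _ _).symm, by rw [List.length_drop]; omega⟩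
          have hWT : W = ((Vw V s).drop (V.length - c - (p + 1))).take (p + 1) := by
            have h6 : W <:+ G ++ T := by
              rw [hGT, hYW]
              exact ⟨A₂ ++ Y', by simp⟩
            have h7 : T <:+ G ++ T := ⟨G, rfl⟩
            obtain ⟨X, hX⟩ := List.suffix_of_suffix_length_le h6 h7 (by rw [hTl, hWl]; omega)
            have h8 : T = T.take (V.length - m - c - (p + 1)) ++
                ((Vw V s).drop (V.length - c - (p + 1))).take (p + 1) := by
              have h9 : ((Vw V s).drop (V.length - c - (p + 1))).take (p + 1) =
                  T.drop (V.length - m - c - (p + 1)) := by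
                rw [hT, List.drop_take, List.drop_drop]
                congr 1
                · omega
                · congr 1; omega
              rw [h9, List.take_append_drop]
            have h10 : X ++ W = T.take (V.length - m - c - (p + 1)) ++
                ((Vw V s).drop (V.length - c - (p + 1))).take (p + 1) := hX.trans h8
            exact (List.append_inj' h10 (by
              rw [hWl, List.length_take, List.length_drop, Vw_length]; omega)).2
          have hV' : Vw V s' = invRev B₁ ++ (invRev W ++ (invRev Y' ++ B₂)) := by
            rw [k2, hinv, hYW, invRev_append]; simp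
          have h11 : ((Vw V s').drop B₁.length).take (p + 1) = invRev W := by
            rw [hV', List.drop_append_of_le_length (by rw [invRev_length]),
              List.drop_eq_nil_of_le (by rw [invRev_length]), List.nil_append,
              List.take_append_of_le_length (by rw [invRev_length, hWl]),
              List.take_of_length_le (by rw [invRev_length, hWl])]
          have h12 : invRev W = ((Vw V (!s)).drop c).take (p + 1) := by
            rw [hWT, ← invRev_Vw, invRev_take_drop (Vw V s) c (p + 1) (by rw [Vw_length]; omega),
              Vw_length]
          rw [h12] at h11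
          have hlB : B₁.length + (p + 1) ≤ V.length := by
            have := congrArg List.length hV'
            rw [Vw_length] at this
            simp only [List.length_append, invRev_length] at this
            omega
          obtain ⟨hs, hcB⟩ := hV.piece' hlB (by omega) h11
          have hB₁ : B₁ = (Vw V s).drop (V.length - c) := by
            have h13 : B₁ = invRev ((Vw V s').take B₁.length) := by rw [htakeB, invRev_invRev]
            rw [h13, hcB, hs, invRev_take, invRev_Vw, Vw_length, Bool.not_not]
          rw [← hB₁] at h1
          rcases B₁ with _ | ⟨x, X'⟩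
          · have hu0 : u = [] := by rw [h1]; rfl
            have : FreeGroup.IsReduced ((none, s) :: (none, s') :: r : List (Option α × Bool)) := by
              refine red_of_infix hU ⟨P ++ emb (invRev ((Vw V s).take a)), [], ?_⟩
              rw [hUe, hu, hu0]; simp [emb_nil]
            rw [isReduced_cons_cons] at this
            have h14 := this.1 rfl
            rw [hs] at h14
            cases s <;> simp at h14
          · have hured : FreeGroup.IsReduced u := by
              apply isReduced_of_emb
              refine red_of_infix hU ⟨P ++ emb (invRev ((Vw V s).take a)) ++ [(none, s)],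
                (none, s') :: r, ?_⟩
              rw [hUe, hu]; simp
            have : FreeGroup.IsReduced ((x.1, !x.2) :: x :: X') := by
              refine red_of_infix hured ⟨invRev X', [], ?_⟩
              rw [h1, invRev_cons]; simp [invRev]
            rw [isReduced_cons_cons] at this
            have h14 := this.1 rfl
            revert h14
            cases x.2 <;> simp
        have hB₁ : invRev ((Vw V s').take B₁.length) = B₁ := by rw [htakeB, invRev_invRev]
        refine ih r hrestlen (P ++ emb (invRev ((Vw V s).take a)) ++ (none, s) ::
          emb (invRev ((Vw V s).drop (V.length - c)))) s' B₁.length C₂.length A₂ (by omega)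
          (by omega) ?_ ?_
        · rw [hB₁, hUe, hu, h1]
          simp [emb_append]
        · rw [hB₁, hdrop]
          rw [← k3, ← hgnext, h1]
          simp [emb_append]

/-- If `U` is reduced, contains the extra letter and has no nearly complete relator, then its
image contains a long piece of `V` or of its inverse. -/
theorem window {V : List (α × Bool)} {L₀ p b₀ : ℕ} (hV : VHyp V L₀ p b₀)
    {U : List (Option α × Bool)} (hU : FreeGroup.IsReduced U) (hNP : NoPat V b₀ U)
    (hnone : ¬ ∃ u : List (α × Bool), U = emb u) :
    ∃ (s' : Bool) (w : List (α × Bool)), w <:+: (rho V (mk U)).toWord ∧ w <:+: Vw V s' ∧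
        L₀ ≤ w.length := by
  rcases split_none U with h | ⟨u, s, r, hu⟩
  · exact absurd h hnone
  · have hured : FreeGroup.IsReduced u := by
      apply isReduced_of_emb
      exact red_of_infix hU ⟨[], (none, s) :: r, by rw [hu]; simp⟩
    have hVred : ∀ s : Bool, FreeGroup.IsReduced (Vw V s) := by
      intro s
      have h5 : FreeGroup.IsReduced V := isReduced_of_pos hV.pos
      cases s with
      | true => exact h5
      | false => exact isReduced_invRev h5
    obtain ⟨A, B, C, k1, k2, k3⟩ := mul_decomp (mk u) (mk (Vw V s))
    rw [toWord_mk_of_isReduced hured] at k1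
    rw [toWord_mk_of_isReduced (hVred s)] at k2
    have hClen : C.length ≤ V.length := by
      have := congrArg List.length k2
      rw [Vw_length, List.length_append, invRev_length] at this
      omega
    have htake : (Vw V s).take C.length = invRev C := by
      rw [k2, List.take_append_of_le_length (by rw [invRev_length]),
        List.take_of_length_le (by rw [invRev_length])]
    have hdrop : (Vw V s).drop C.length = B := by
      rw [k2]
      rw [List.drop_append_of_le_length (by rw [invRev_length]),
        List.drop_eq_nil_of_le (by rw [invRev_length])]
      rfl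
    refine window_aux hV hU hNP r.length r le_rfl (emb A) s C.length C.length A hClen (by omega)
      ?_ ?_
    · rw [htake, invRev_invRev, hu, k1, emb_append]
    · rw [htake, invRev_invRev, hdrop, ← k3, ← emb_append, ← k1, mk_append, _root_.map_mul,
        rho_emb, rho_none]

end

end Pool.Agent.Lib.Pee92d8
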