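import Mathlib
import Pool.Agent.Lib.Pee92d8.Pattern

set_option autoImplicit false

namespace Pool.Agent.Lib.Pee92d8

open FreeGroup List

section
variable {α : Type} [DecidableEq α]

/-- cost of a word over the bigger alphabet, with pending exponent `e` -/
def cst (w : α × Bool → ℤ) : ℤ → List (Option α × Bool) → ℤ
  | e, [] => |e|
  | e, (none, true) :: l => cst w (e + 1) l
  | e, (none, false) :: l => cst w (e - 1) l
  | e, (some i, b) :: l => |e - w (i, b)| + 1 + cst w (w (i, !b)) l

omit [DecidableEq α] in
theorem cst_lip (w : α × Bool → ℤ) (l : List (Option α × Bool)) :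
    ∀ e e' : ℤ, cst w e l ≤ cst w e' l + |e - e'| := by
  induction l with
  | nil =>
    intro e e'
    simp only [cst]
    have := abs_sub_abs_le_abs_sub e e'
    linarith
  | cons x l ih =>
    intro e e'
    rcases x with ⟨_ | i, b⟩
    · cases b with
      | true =>
        simp only [cst]
        have := ih (e + 1) (e' + 1)
        rwa [add_sub_add_right_eq_sub] at this
      | false =>
        simp only [cst]
        have := ih (e - 1) (e' - 1)
        rwa [sub_sub_sub_cancel_right] at this
    · simp only [cst]
      have h1 : |e - w (i, b)| ≤ |e' - w (i, b)| + |e - e'| := by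
        have := abs_add_le (e' - w (i, b)) (e - e')
        have h2 : e' - w (i, b) + (e - e') = e - w (i, b) := by ring
        rw [h2] at this
        exact this
      linarith

omit [DecidableEq α] in
theorem cst_nonneg (w : α × Bool → ℤ) (l : List (Option α × Bool)) : ∀ e : ℤ, 0 ≤ cst w e l := by
  induction l with
  | nil => intro e; exact abs_nonneg e
  | cons x l ih =>
    intro e
    rcases x with ⟨_ | i, b⟩
    · cases b with
      | true => exact ih _
      | false => exact ih _
    · simp only [cst]
      have := ih (w (i, !b))
      have := abs_nonneg (e - w (i, b))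
      linarith

omit [DecidableEq α] in
theorem cst_append_congr (w : α × Bool → ℤ) {Q Q' : List (Option α × Bool)}
    (h : ∀ e, cst w e Q ≤ cst w e Q') (P : List (Option α × Bool)) :
    ∀ e, cst w e (P ++ Q) ≤ cst w e (P ++ Q') := by
  induction P with
  | nil => exact h
  | cons x P ih =>
    intro e
    rcases x with ⟨_ | i, b⟩
    · cases b with
      | true => exact ih _
      | false => exact ih _
    · simp only [List.cons_append, cst]
      have := ih (w (i, !b))
      linarith

omit [DecidableEq α] in
theorem cst_step (w : α × Bool → ℤ) {U U' : List (Option α × Bool)} (h : Red.Step U U') :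
    ∀ e, cst w e U' ≤ cst w e U := by
  rcases h with @⟨L₁, L₂, x, b⟩
  apply cst_append_congr
  intro e
  rcases x with _ | i
  · cases b with
    | true => simp [cst]
    | false => simp [cst]
  · simp only [cst]
    rw [Bool.not_not, sub_self, abs_zero]
    have := cst_lip w L₂ e (w (i, b))
    linarith

omit [DecidableEq α] in
theorem cst_red (w : α × Bool → ℤ) {U U' : List (Option α × Bool)} (h : Red U U') :
    ∀ e, cst w e U' ≤ cst w e U := by
  induction h with
  | refl => intro e; exact le_rfl
  | tail _ h2 ih => intro e; exact (cst_step w h2 e).trans (ih e)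

/-- power of the extra letter -/
def vp (n : ℤ) : List (Option α × Bool) := List.replicate n.natAbs (none, decide (0 ≤ n))

omit [DecidableEq α] in
theorem cst_vp (w : α × Bool → ℤ) (n : ℤ) (l : List (Option α × Bool)) (e : ℤ) :
    cst w e (vp n ++ l) = cst w (e + n) l := by
  have h1 : ∀ (k : ℕ) (e : ℤ), cst w e (List.replicate k (none, true) ++ l) = cst w (e + k) l := by
    intro k
    induction k with
    | zero => intro e; simp
    | succ k ih =>
      intro e
      rw [List.replicate_succ, List.cons_append]
      simp only [cst]
      rw [ih]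
      push_cast
      congr 1; ring
  have h2 : ∀ (k : ℕ) (e : ℤ), cst w e (List.replicate k (none, false) ++ l) = cst w (e - k) l := by
    intro k
    induction k with
    | zero => intro e; simp
    | succ k ih =>
      intro e
      rw [List.replicate_succ, List.cons_append]
      simp only [cst]
      rw [ih]
      push_cast
      congr 1; ring
  unfold vp
  rcases le_or_gt 0 n with hn | hn
  · rw [decide_eq_true hn, h1]
    congr 1; omega
  · rw [decide_eq_false (by omega), h2]
    congr 1; omega

omit [DecidableEq α] in
theorem rho_vp (V : List (α × Bool)) (n : ℤ) : rho V (mk (vp n)) = (mk V) ^ n := by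
  have h1 : ∀ k : ℕ, rho V (mk (List.replicate k (none, true))) = (mk V) ^ k := by
    intro k
    induction k with
    | zero => rw [pow_zero]; exact map_one (rho V)
    | succ k ih =>
      have : (List.replicate (k + 1) (none, true) : List (Option α × Bool)) =
          List.replicate k (none, true) ++ [(none, true)] := List.replicate_succ'
      rw [this, mk_append, _root_.map_mul, ih, rho_none, pow_succ]
      rfl
  have h2 : ∀ k : ℕ, rho V (mk (List.replicate k (none, false))) = ((mk V)⁻¹) ^ k := by
    intro k
    induction k with
    | zero => rw [pow_zero]; exact map_one (rho V)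
    | succ k ih =>
      have : (List.replicate (k + 1) (none, false) : List (Option α × Bool)) =
          List.replicate k (none, false) ++ [(none, false)] := List.replicate_succ'
      rw [this, mk_append, _root_.map_mul, ih, rho_none, pow_succ]
      rfl
  unfold vp
  rcases le_or_gt 0 n with hn | hn
  · rw [decide_eq_true hn, h1, ← zpow_natCast]
    congr 1; omega
  · rw [decide_eq_false (by omega), h2, inv_pow, ← zpow_natCast, ← zpow_neg]
    congr 1; omega

/-- The letters of the new generating set. -/
def zlet (V : List (α × Bool)) (w : α × Bool → ℤ) (x : α × Bool) : FreeGroup α :=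
  (mk V) ^ (w x) * mk [x] * (mk V) ^ (-(w (x.1, !x.2)))

omit [DecidableEq α] in
/-- Words in the new generators lift to words over the bigger alphabet of bounded cost. -/
theorem lift_word (V : List (α × Bool)) (w : α × Bool → ℤ) (W : List (FreeGroup α))
    (hW : ∀ x ∈ W, x = mk V ∨ x = (mk V)⁻¹ ∨ ∃ y, x = zlet V w y) :
    ∃ U : List (Option α × Bool), rho V (mk U) = W.prod ∧ ∀ e, cst w e U ≤ |e| + W.length := by
  induction W with
  | nil =>
    refine ⟨[], map_one (rho V), fun e => by simp [cst]⟩
  | cons x W ih =>
    obtain ⟨U, hU1, hU2⟩ := ih (fun y hy => hW y (by simp [hy]))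
    rcases hW x (by simp) with rfl | rfl | ⟨⟨i, b⟩, rfl⟩
    · refine ⟨(none, true) :: U, ?_, fun e => ?_⟩
      · have : ((none, true) :: U : List (Option α × Bool)) = [(none, true)] ++ U := rfl
        rw [this, mk_append, _root_.map_mul, hU1, rho_none, List.prod_cons]
        rfl
      · simp only [cst, List.length_cons]
        have h1 := hU2 (e + 1)
        have h2 := abs_add_le e 1
        simp only [abs_one] at h2
        push_cast
        linarith
    · refine ⟨(none, false) :: U, ?_, fun e => ?_⟩
      · have : ((none, false) :: U : List (Option α × Bool)) = [(none, false)] ++ U := rfl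
        rw [this, mk_append, _root_.map_mul, hU1, rho_none, List.prod_cons]
        rfl
      · simp only [cst, List.length_cons]
        have h1 := hU2 (e - 1)
        have h2 := abs_sub e 1
        simp only [abs_one] at h2
        push_cast
        linarith
    · refine ⟨vp (w (i, b)) ++ ((some i, b) :: (vp (-(w (i, !b))) ++ U)), ?_, fun e => ?_⟩
      · have : ((some i, b) :: (vp (-(w (i, !b))) ++ U) : List (Option α × Bool)) =
            emb [(i, b)] ++ (vp (-(w (i, !b))) ++ U) := rfl
        rw [this, mk_append, mk_append, mk_append, _root_.map_mul, _root_.map_mul, _root_.map_mul,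
          hU1, rho_vp, rho_vp, rho_emb, List.prod_cons, zlet]
        group
      · rw [cst_vp]
        simp only [cst, List.length_cons]
        rw [cst_vp]
        have h1 := hU2 (w (i, !b) + -w (i, !b))
        rw [add_neg_cancel] at h1 ⊢
        have h2 : e + w (i, b) - w (i, b) = e := by ring
        rw [h2]
        simp only [abs_zero] at h1
        push_cast
        linarith

/-- Hypotheses on the weights. -/
structure WHyp (w : α × Bool → ℤ) (lam N : ℤ) : Prop where
  lam_pos : 1 ≤ lam
  N_nonneg : 0 ≤ N
  sep : ∀ x y, x ≠ y → lam ≤ |w x - w y|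
  bd : ∀ x, |w x| ≤ N

omit [DecidableEq α] in
theorem ne_of_reduced {x y : α × Bool} {u : List (α × Bool)}
    (hred : FreeGroup.IsReduced (x :: y :: u)) : (x.1, !x.2) ≠ y := by
  rw [isReduced_cons_cons] at hred
  intro h
  have h5 := hred.1 (by rw [← h])
  rw [← h] at h5
  revert h5
  cases x.2 <;> simp

omit [DecidableEq α] in
/-- lower bound for the cost of the rest of a reduced run -/
theorem cst_tail_lower {w : α × Bool → ℤ} {lam N : ℤ} (hw : WHyp w lam N) (u : List (α × Bool)) :
    ∀ (x : α × Bool) (Q : List (Option α × Bool)), FreeGroup.IsReduced (x :: u) →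
    u.length * (lam + 1) + (cst w 0 Q - N) ≤ cst w (w (x.1, !x.2)) (emb u ++ Q) := by
  induction u with
  | nil =>
    intro x Q _
    have h2 := cst_lip w Q 0 (w (x.1, !x.2))
    rw [zero_sub, abs_neg] at h2
    have h3 := hw.bd (x.1, !x.2)
    simp only [List.length_nil, emb_nil, List.nil_append]
    push_cast
    linarith
  | cons y u ih =>
    intro x Q hred
    have h1 : cst w (w (x.1, !x.2)) (emb (y :: u) ++ Q) =
        |w (x.1, !x.2) - w y| + 1 + cst w (w (y.1, !y.2)) (emb u ++ Q) := rfl
    rw [h1]
    have hred' : FreeGroup.IsReduced (y :: u) := red_of_infix hred ⟨[x], [], by simp⟩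
    have h2 := ih y Q hred'
    have h3 := hw.sep _ _ (ne_of_reduced hred)
    simp only [List.length_cons]
    push_cast
    linarith

omit [DecidableEq α] in
/-- lower bound for the cost of a reduced nonempty run followed by something -/
theorem cst_run_lower {w : α × Bool → ℤ} {lam N : ℤ} (hw : WHyp w lam N) {L : List (α × Bool)}
    (hL : L ≠ []) (hred : FreeGroup.IsReduced L) (e : ℤ) (Q : List (Option α × Bool)) :
    |e| + cst w 0 Q + ((L.length : ℤ) - 1) * (lam + 1) + 1 - 2 * N ≤ cst w e (emb L ++ Q) := by
  rcases L with _ | ⟨x, u⟩
  · exact absurd rfl hL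
  have h1 : cst w e (emb (x :: u) ++ Q) =
      |e - w x| + 1 + cst w (w (x.1, !x.2)) (emb u ++ Q) := rfl
  rw [h1]
  have h2 := cst_tail_lower hw u x Q hred
  have h3 := hw.bd x
  have h4 := abs_sub_abs_le_abs_sub e (w x)
  simp only [List.length_cons]
  push_cast
  linarith

omit [DecidableEq α] in
theorem cst_upper {w : α × Bool → ℤ} {lam N : ℤ} (hw : WHyp w lam N) (B : List (α × Bool)) :
    ∀ (e : ℤ) (Q : List (Option α × Bool)),
    cst w e (emb B ++ Q) ≤ |e| + cst w 0 Q + B.length * (2 * N + 1) := by
  induction B with
  | nil =>
    intro e Q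
    have h2 := cst_lip w Q e 0
    rw [sub_zero] at h2
    simp only [List.length_nil, emb_nil, List.nil_append]
    push_cast
    linarith
  | cons y B ih =>
    intro e Q
    have h1 : cst w e (emb (y :: B) ++ Q) =
        |e - w y| + 1 + cst w (w (y.1, !y.2)) (emb B ++ Q) := rfl
    rw [h1]
    have h2 := ih (w (y.1, !y.2)) Q
    have h3 := hw.bd y
    have h4 := hw.bd (y.1, !y.2)
    have h5 := abs_sub e (w y)
    simp only [List.length_cons]
    push_cast
    linarith

omit [DecidableEq α] in
theorem invRev_ne_nil {L : List (α × Bool)} (h : L ≠ []) : invRev L ≠ [] := by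
  intro h0
  apply h
  have := congrArg List.length h0
  rw [invRev_length] at this
  exact List.length_eq_zero_iff.1 (by simpa using this)

/-- replacing a nearly complete relator does not increase the cost -/
theorem cst_replace {w : α × Bool → ℤ} {lam N : ℤ} (hw : WHyp w lam N) {b₀ : ℕ}
    {A B C : List (α × Bool)} (hA : FreeGroup.IsReduced A) (hC : FreeGroup.IsReduced C)
    (hB : B.length ≤ b₀)
    (hM : (b₀ : ℤ) * (2 * N + 1) + 4 * N + 1 ≤ ((A.length : ℤ) + C.length - 2) * (lam + 1))
    (s : Bool) (Q : List (Option α × Bool)) (e : ℤ) :
    cst w e (emb B ++ Q) ≤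
      cst w e (emb (invRev A) ++ (none, s) :: (emb (invRev C) ++ Q)) := by
  have hN := hw.N_nonneg
  have hlam := hw.lam_pos
  have hup := cst_upper hw B e Q
  have hstep : ∀ (e : ℤ) (R : List (Option α × Bool)), |e| - 1 ≤ |(if s then e + 1 else e - 1)| ∧
      cst w e ((none, s) :: R) = cst w (if s then e + 1 else e - 1) R := by
    intro e R
    cases s with
    | true =>
      refine ⟨?_, rfl⟩
      simp only [if_true]
      have := abs_sub (e + 1) 1
      rw [add_sub_cancel_right, abs_one] at this
      linarith
    | false =>
      refine ⟨?_, rfl⟩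
      simp only [Bool.false_eq_true, if_false]
      have := abs_add_le (e - 1) 1
      rw [sub_add_cancel, abs_one] at this
      linarith
  have hBb : (B.length : ℤ) * (2 * N + 1) ≤ b₀ * (2 * N + 1) := by
    apply mul_le_mul_of_nonneg_right _ (by linarith)
    exact_mod_cast hB
  rcases eq_or_ne A [] with hA0 | hA0
  · subst hA0
    rw [invRev_empty, emb_nil, List.nil_append, (hstep e _).2]
    rcases eq_or_ne C [] with hC0 | hC0
    · subst hC0
      exfalso
      simp only [List.length_nil] at hM
      push_cast at hM
      nlinarith
    · have h1 := cst_run_lower hw (L := invRev C) (invRev_ne_nil hC0) (isReduced_invRev hC)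
        (if s then e + 1 else e - 1) Q
      rw [invRev_length] at h1
      have h2 := (hstep e []).1
      simp only [List.length_nil] at hM
      push_cast at hM
      linarith
  · have h1 := cst_run_lower hw (L := invRev A) (invRev_ne_nil hA0) (isReduced_invRev hA)
        e ((none, s) :: (emb (invRev C) ++ Q))
    rw [invRev_length, (hstep 0 _).2] at h1
    rcases eq_or_ne C [] with hC0 | hC0
    · subst hC0
      rw [invRev_empty, emb_nil, List.nil_append] at h1 ⊢
      have h2 := cst_lip w Q 0 (if s then (0 : ℤ) + 1 else 0 - 1)
      have h3 : |(0 : ℤ) - (if s then (0 : ℤ) + 1 else 0 - 1)| = 1 := by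
        cases s <;> simp
      rw [h3] at h2
      simp only [List.length_nil] at hM
      push_cast at hM
      linarith
    · have h2 := cst_run_lower hw (L := invRev C) (invRev_ne_nil hC0) (isReduced_invRev hC)
        (if s then (0 : ℤ) + 1 else 0 - 1) Q
      rw [invRev_length] at h2
      have h3 : |(if s then (0 : ℤ) + 1 else 0 - 1)| = 1 := by
        cases s <;> simp
      rw [h3] at h2
      nlinarith

end

end Pool.Agent.Lib.Pee92d8
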