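import Mathlib
import Pool.Agent.Lib.Pee92d8.Cost

set_option autoImplicit false

namespace Pool.Agent.Lib.Pee92d8

open FreeGroup List

section
variable {α : Type} [DecidableEq α]

/-- `h` contains no long piece of `V` or its inverse. -/
def NoWin (V : List (α × Bool)) (L₀ : ℕ) (h : FreeGroup α) : Prop :=
  ∀ (s : Bool) (w : List (α × Bool)), w <:+: h.toWord → w <:+: Vw V s → w.length < L₀

/-- number of extra letters -/
def nn (U : List (Option α × Bool)) : ℕ := (U.filter (fun x => x.1.isNone)).length

omit [DecidableEq α] in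
theorem nn_append (U U' : List (Option α × Bool)) : nn (U ++ U') = nn U + nn U' := by
  simp [nn]

omit [DecidableEq α] in
theorem nn_emb (u : List (α × Bool)) : nn (emb u) = 0 := by
  unfold nn emb
  rw [List.length_eq_zero_iff, List.filter_eq_nil_iff]
  intro a ha
  rw [List.mem_map] at ha
  obtain ⟨x, _, rfl⟩ := ha
  simp

omit [DecidableEq α] in
theorem nn_cons (s : Bool) (U : List (Option α × Bool)) : nn ((none, s) :: U) = nn U + 1 := by
  simp [nn]

theorem main_cost {V : List (α × Bool)} {L₀ p b₀ : ℕ} (hV : VHyp V L₀ p b₀)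
    {w : α × Bool → ℤ} {lam N : ℤ} (hw : WHyp w lam N)
    (hM : (b₀ : ℤ) * (2 * N + 1) + 4 * N + 1 ≤ ((V.length : ℤ) - b₀ - 2) * (lam + 1))
    {h : FreeGroup α} (hh : NoWin V L₀ h) (n : ℕ) :
    ∀ U : List (Option α × Bool), nn U ≤ n → rho V (mk U) = h →
      cst w 0 (emb h.toWord) ≤ cst w 0 U := by
  have hVred : ∀ s : Bool, FreeGroup.IsReduced (Vw V s) := by
    intro s
    have h5 : FreeGroup.IsReduced V := isReduced_of_pos hV.pos
    cases s with
    | true => exact h5
    | false => exact isReduced_invRev h5
  induction n using Nat.strong_induction_on with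
  | _ n ih =>
    intro U hn hU
    have hred : Red U (reduce U) := reduce.red
    refine le_trans ?_ (cst_red w hred 0)
    have hn' : nn (reduce U) ≤ n := le_trans (hred.sublist.filter _).length_le hn
    have hU' : rho V (mk (reduce U)) = h := by rw [← hU, reduce.self]
    have hR : FreeGroup.IsReduced (reduce U) := by
      rw [isReduced_iff_reduce_eq, reduce.idem]
    generalize reduce U = U' at hn' hU' hR
    by_cases hemb : ∃ u : List (α × Bool), U' = emb u
    · obtain ⟨u, rfl⟩ := hemb
      rw [rho_emb] at hU'
      rw [← hU', toWord_mk_of_isReduced (isReduced_of_emb hR)]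
    · by_cases hNP : NoPat V b₀ U'
      · exfalso
        obtain ⟨s, v, hv1, hv2, hv3⟩ := window hV hR hNP hemb
        rw [hU'] at hv1
        have := hh s v hv1 hv2
        omega
      · unfold NoPat at hNP
        push Not at hNP
        obtain ⟨P, Q, A, B, C, s, h1, h2, h3⟩ := hNP
        have hAr : FreeGroup.IsReduced A := red_of_infix (hVred s) ⟨[], B ++ C, by rw [h1]; simp⟩
        have hCr : FreeGroup.IsReduced C := red_of_infix (hVred s) ⟨A ++ B, [], by rw [h1]; simp⟩
        have hlen : V.length = A.length + B.length + C.length := by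
          rw [← Vw_length V s, h1]; simp; omega
        have hstep : cst w 0 (P ++ (emb B ++ Q)) ≤ cst w 0 U' := by
          rw [h2]
          have h4 : P ++ emb (invRev A) ++ (none, s) :: (emb (invRev C) ++ Q) =
              P ++ (emb (invRev A) ++ (none, s) :: (emb (invRev C) ++ Q)) := by simp
          rw [h4]
          refine cst_append_congr w (cst_replace hw hAr hCr h3 ?_ s Q) P 0
          refine le_trans hM ?_
          apply mul_le_mul_of_nonneg_right _ (by linarith [hw.lam_pos])
          have : (B.length : ℤ) ≤ b₀ := by exact_mod_cast h3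
          have h5 : (V.length : ℤ) = A.length + B.length + C.length := by exact_mod_cast hlen
          linarith
        refine le_trans ?_ hstep
        have hcnt : nn (P ++ (emb B ++ Q)) < n := by
          rw [h2, nn_append, nn_append, nn_cons, nn_append] at hn'
          rw [nn_append, nn_append, nn_emb]
          rw [nn_emb, nn_emb] at hn'
          omega
        refine ih _ hcnt _ le_rfl ?_
        rw [← hU', h2]
        have h4 : P ++ emb (invRev A) ++ (none, s) :: (emb (invRev C) ++ Q) =
              P ++ (emb (invRev A) ++ ([(none, s)] ++ (emb (invRev C) ++ Q))) := by simp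
        rw [h4]
        simp only [mk_append, _root_.map_mul, rho_emb, rho_none, h1]
        rw [← inv_mk, ← inv_mk]
        group

/-- Lower bound for the length with respect to the new generators. -/
theorem length_lower {V : List (α × Bool)} {L₀ p b₀ : ℕ} (hV : VHyp V L₀ p b₀)
    {w : α × Bool → ℤ} {lam N : ℤ} (hw : WHyp w lam N)
    (hM : (b₀ : ℤ) * (2 * N + 1) + 4 * N + 1 ≤ ((V.length : ℤ) - b₀ - 2) * (lam + 1))
    {h : FreeGroup α} (hh : NoWin V L₀ h) (hne : h ≠ 1) (W : List (FreeGroup α))
    (hW : ∀ x ∈ W, x = mk V ∨ x = (mk V)⁻¹ ∨ ∃ y, x = zlet V w y) (hprod : W.prod = h) :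
    ((h.toWord.length : ℤ) - 1) * (lam + 1) + 1 - 2 * N ≤ W.length := by
  obtain ⟨U, hU1, hU2⟩ := lift_word V w W hW
  have h1 := main_cost hV hw hM hh (nn U) U le_rfl (hU1.trans hprod)
  have h2 := hU2 0
  have h3 := cst_run_lower hw (L := h.toWord) (by rwa [Ne, toWord_eq_nil_iff]) isReduced_toWord 0 []
  rw [List.append_nil] at h3
  have h4 : cst w 0 [] = 0 := by simp [cst]
  rw [h4] at h3
  rw [abs_zero] at h2 h3
  linarith

end

end Pool.Agent.Lib.Pee92d8
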