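import Mathlib
import Pool.Agent.Lib.Pee92d8.Main
import Pool.Agent.Lib.Pee92d8.Block

set_option autoImplicit false

namespace Pool.Agent.Lib.Pee92d8

open FreeGroup List

section
variable {α : Type}

/-- the letters of the long word: a copy of `Q` starts at each square, the rest is `x0` -/
def lt (Q : List α) (x0 : α) (n : ℕ) : α := Q.getD (n - (Nat.sqrt n) ^ 2) x0

theorem lt_sq_add (Q : List α) (x0 : α) (s t : ℕ) (h : t ≤ 2 * s) :
    lt Q x0 (s ^ 2 + t) = Q.getD t x0 := by
  unfold lt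
  have : Nat.sqrt (s ^ 2 + t) = s := by
    rw [pow_two]
    exact Nat.sqrt_add_eq s (by omega)
  rw [this, Nat.add_sub_cancel_left]

theorem lt_piece_aux {Q : List α} {x0 : α} (hQ : Q.getD 0 x0 ≠ x0) {T S : ℕ}
    (hT : Q.length ≤ T) {I d : ℕ} (hI : T ^ 2 ≤ I) (hS : Nat.sqrt I ≤ S)
    (h : ∀ t < 6 * S + 10, lt Q x0 (I + t) = lt Q x0 (I + d + t)) : d = 0 := by
  obtain ⟨r, hr⟩ : ∃ r, Nat.sqrt I = r := ⟨_, rfl⟩
  rw [hr] at hS
  have hr1 : r ^ 2 ≤ I := by rw [← hr]; exact Nat.sqrt_le' I
  have hr2 : I < (r + 1) ^ 2 := by rw [← hr]; exact Nat.lt_succ_sqrt' I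
  have hTr : T ≤ r := by rw [← hr, Nat.le_sqrt']; exact hI
  -- squares shift to squares
  have key : ∀ s, I + Q.length ≤ s ^ 2 → s ^ 2 < I + (6 * S + 10) → ∃ u, s ^ 2 + d = u ^ 2 := by
    intro s hs1 hs2
    have hrs : r + 1 ≤ s := by
      by_contra hcon
      push Not at hcon
      have : s ≤ r := by omega
      have : s ^ 2 ≤ r ^ 2 := Nat.pow_le_pow_left this 2
      have hQ0 : Q.length ≠ 0 := by
        intro h0
        have : Q = [] := List.length_eq_zero_iff.1 h0
        rw [this] at hQ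
        simp at hQ
      omega
    have h1 : lt Q x0 (s ^ 2) = Q.getD 0 x0 := by
      have := lt_sq_add Q x0 s 0 (by omega)
      simpa using this
    obtain ⟨o, ho⟩ : ∃ o, s ^ 2 = I + o := ⟨s ^ 2 - I, by omega⟩
    have h2 : lt Q x0 (s ^ 2 + d) = Q.getD 0 x0 := by
      have := h o (by omega)
      rw [← ho, h1] at this
      rw [this]
      congr 1; omega
    obtain ⟨u, hu⟩ : ∃ u, Nat.sqrt (s ^ 2 + d) = u := ⟨_, rfl⟩
    have hu1 : u ^ 2 ≤ s ^ 2 + d := by rw [← hu]; exact Nat.sqrt_le' _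
    obtain ⟨t, ht⟩ : ∃ t, s ^ 2 + d = u ^ 2 + t := ⟨s ^ 2 + d - u ^ 2, by omega⟩
    have ht2 : t < Q.length := by
      by_contra hcon
      push Not at hcon
      have h3 : lt Q x0 (s ^ 2 + d) = x0 := by
        unfold lt
        rw [hu, ht, Nat.add_sub_cancel_left]
        exact List.getD_eq_default _ _ hcon
      rw [h3] at h2
      exact hQ h2.symm
    rcases Nat.eq_zero_or_pos t with h0 | hpos
    · exact ⟨u, by rw [ht, h0, add_zero]⟩
    · exfalso
      have h4 : lt Q x0 (u ^ 2) = Q.getD 0 x0 := by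
        have := lt_sq_add Q x0 u 0 (by omega)
        simpa using this
      have h5 : I + d + (o - t) = u ^ 2 := by omega
      have h6 := h (o - t) (by omega)
      rw [h5, h4] at h6
      obtain ⟨s', rfl⟩ : ∃ s', s = s' + 1 := ⟨s - 1, by omega⟩
      have h7 : I + (o - t) = s' ^ 2 + (2 * s' + 1 - t) := by
        have : (s' + 1) ^ 2 = s' ^ 2 + (2 * s' + 1) := by ring
        omega
      rw [h7, lt_sq_add Q x0 s' _ (by omega), List.getD_eq_default _ _ (by omega)] at h6
      exact hQ h6.symm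
  obtain ⟨u, hu⟩ := key (r + 2) (by nlinarith) (by nlinarith)
  obtain ⟨u', hu'⟩ := key (r + 3) (by nlinarith) (by nlinarith)
  have h1 : u < u' := by
    by_contra hcon
    push Not at hcon
    nlinarith
  have h2 : u' ^ 2 = u ^ 2 + (2 * r + 5) := by nlinarith
  have h3 : u ≤ r + 2 := by nlinarith
  nlinarith

/-- The long positive word. -/
def Vword (Q : List α) (x0 : α) (T M : ℕ) : List (α × Bool) :=
  (List.range M).map (fun n => (lt Q x0 (T ^ 2 + n), true))

theorem Vword_length (Q : List α) (x0 : α) (T M : ℕ) : (Vword Q x0 T M).length = M := by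
  simp [Vword]

theorem Vword_get (Q : List α) (x0 : α) (T M i n t : ℕ) (ht : t < n) (hn : i + n ≤ M) :
    (((Vword Q x0 T M).drop i).take n)[t]? = some (lt Q x0 (T ^ 2 + i + t), true) := by
  rw [List.getElem?_take_of_lt ht, List.getElem?_drop]
  unfold Vword
  rw [List.getElem?_map, List.getElem?_range (by omega)]
  simp [add_assoc]

theorem Vword_piece {Q : List α} {x0 : α} (hQ : Q.getD 0 x0 ≠ x0) {T S M : ℕ}
    (hT : Q.length ≤ T) (hS : Nat.sqrt (T ^ 2 + M) ≤ S) (i j : ℕ)
    (hi : i + (6 * S + 9 + 1) ≤ (Vword Q x0 T M).length)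
    (hj : j + (6 * S + 9 + 1) ≤ (Vword Q x0 T M).length)
    (h : ((Vword Q x0 T M).drop i).take (6 * S + 9 + 1) =
      ((Vword Q x0 T M).drop j).take (6 * S + 9 + 1)) : i = j := by
  rw [Vword_length] at hi hj
  wlog hij : i ≤ j generalizing i j
  · exact (this j i hj hi h.symm (by omega)).symm
  obtain ⟨d, rfl⟩ : ∃ d, j = i + d := ⟨j - i, by omega⟩
  have h0 : d = 0 := by
    refine lt_piece_aux hQ hT (I := T ^ 2 + i) (d := d) (S := S) (by omega) ?_ ?_
    · exact le_trans (Nat.sqrt_le_sqrt (by omega)) hS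
    · intro t ht
      have h1 := Vword_get Q x0 T M i (6 * S + 9 + 1) t (by omega) hi
      rw [h, Vword_get Q x0 T M (i + d) (6 * S + 9 + 1) t (by omega) hj] at h1
      have h2 := (Option.some.inj h1)
      have h3 := congrArg Prod.fst h2
      simp only at h3
      rw [← h3]
      congr 1; omega
  omega

theorem Vword_window {Q : List α} {x0 : α} {T S M : ℕ}
    (hT : Q.length ≤ T) (hS : Nat.sqrt (T ^ 2 + M) ≤ S) (w : List (α × Bool))
    (hw : w <:+: Vword Q x0 T M) (hl : 3 * S + 2 ≤ w.length) :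
    Q.map (fun x => (x, true)) <:+: w := by
  obtain ⟨X, Y, hXY⟩ := hw
  have hlen : X.length + w.length + Y.length = M := by
    rw [← Vword_length Q x0 T M, ← hXY]; simp; omega
  have hwe : w = ((Vword Q x0 T M).drop X.length).take w.length := by
    rw [← hXY, List.append_assoc, List.drop_left, List.take_left]
  obtain ⟨r, hr⟩ : ∃ r, Nat.sqrt (T ^ 2 + X.length) = r := ⟨_, rfl⟩
  have hr1 : r ^ 2 ≤ T ^ 2 + X.length := by rw [← hr]; exact Nat.sqrt_le' _
  have hr2 : T ^ 2 + X.length < (r + 1) ^ 2 := by rw [← hr]; exact Nat.lt_succ_sqrt' _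
  have hTr : T ≤ r := by rw [← hr, Nat.le_sqrt']; omega
  have hrS : r ≤ S := by rw [← hr]; exact le_trans (Nat.sqrt_le_sqrt (by omega)) hS
  obtain ⟨o, ho⟩ : ∃ o, (r + 1) ^ 2 = T ^ 2 + X.length + o :=
    ⟨(r + 1) ^ 2 - (T ^ 2 + X.length), by omega⟩
  have ho2 : o + Q.length ≤ w.length := by nlinarith
  have hQw : Q.map (fun x => (x, true)) = (w.drop o).take Q.length := by
    apply List.ext_getElem?
    intro t
    rcases lt_or_ge t Q.length with ht | ht
    · rw [List.getElem?_take_of_lt ht, List.getElem?_drop, hwe]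
      rw [Vword_get Q x0 T M X.length w.length (o + t) (by omega) (by omega)]
      rw [List.getElem?_map, List.getElem?_eq_getElem ht]
      have : T ^ 2 + X.length + (o + t) = (r + 1) ^ 2 + t := by omega
      rw [this, lt_sq_add Q x0 (r + 1) t (by omega), List.getD_eq_getElem _ _ ht]
      rfl
    · rw [List.getElem?_eq_none (by simpa using ht), List.getElem?_eq_none (by
        rw [List.length_take]; omega)]
  rw [hQw]
  exact (List.take_prefix _ _).isInfix.trans (List.drop_suffix _ _).isInfix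

/-- Existence of the long positive word: long windows contain every pair of letters, positions are
determined by much shorter windows, and the word is much longer than the windows. -/
theorem exists_word [Finite α] [Nontrivial α] (N : ℕ) :
    ∃ (V : List (α × Bool)) (L₀ p b₀ : ℕ), VHyp V L₀ p b₀ ∧
      b₀ * N + N ≤ V.length ∧
      (∀ w, w <:+: V → L₀ ≤ w.length → ∀ i j : α, [(i, true), (j, true)] <:+: w) := by
  classical
  obtain ⟨x0, x1, hx⟩ := exists_pair_ne α
  have := Fintype.ofFinite α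
  set Q : List α := x1 :: (Finset.univ : Finset (α × α)).toList.flatMap (fun x => [x.1, x.2]) with hQ
  have hQ0 : Q.getD 0 x0 ≠ x0 := by
    rw [hQ]; simpa using hx.symm
  have hpair : ∀ i j : α, [i, j] <:+: Q := by
    intro i j
    have h1 : [i, j] <:+: (Finset.univ : Finset (α × α)).toList.flatMap (fun x => [x.1, x.2]) := by
      obtain ⟨s, t, hst⟩ := List.append_of_mem (show (i, j) ∈ (Finset.univ : Finset (α × α)).toList by
        simp)
      rw [hst, List.flatMap_append, List.flatMap_cons]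
      exact ⟨_, _, by simp; rfl⟩
    rw [hQ]
    exact h1.trans (List.suffix_cons _ _).isInfix
  obtain ⟨T, hT⟩ : ∃ T, T = 100 * (N + 1) + Q.length := ⟨_, rfl⟩
  have hsq : Nat.sqrt (T ^ 2 + 3 * T ^ 2) ≤ 2 * T := by
    have : T ^ 2 + 3 * T ^ 2 = (2 * T) ^ 2 := by ring
    rw [this, Nat.sqrt_eq']
  refine ⟨Vword Q x0 T (3 * T ^ 2), 3 * (2 * T) + 2, 6 * (2 * T) + 9, 3 * (2 * T) + 2 +
    2 * (6 * (2 * T) + 9) + 1, ⟨?_, ?_, by omega, by omega⟩, ?_, ?_⟩
  · intro x hx
    simp only [Vword, List.mem_map] at hx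
    obtain ⟨_, _, rfl⟩ := hx
    rfl
  · intro i j hi hj h
    exact Vword_piece hQ0 (by omega) hsq i j hi hj h
  · rw [Vword_length]
    have h1 : 100 * (N + 1) ≤ T := by omega
    have h2 : 100 * (N + 1) * T ≤ T * T := Nat.mul_le_mul_right _ h1
    nlinarith
  · intro w hw hl i j
    have h1 := Vword_window (by omega) hsq w hw hl
    refine List.IsInfix.trans ?_ h1
    have := (hpair i j).map (fun x => (x, true))
    simpa using this

end

end Pool.Agent.Lib.Pee92d8
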