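import Mathlib
import Pool.Agent.Lib.Pee92d8.Word

set_option autoImplicit false

namespace Pool.Agent.Lib.Pee92d8

open FreeGroup List

section
variable {α : Type} [DecidableEq α]

omit [DecidableEq α] in
theorem isPrimitive_inv {c : FreeGroup α} (hc : IsPrimitive c) : IsPrimitive c⁻¹ := by
  classical
  obtain ⟨ι, b, i, rfl⟩ := hc
  -- compose with the automorphism inverting the `i`-th generator
  let f : FreeGroup ι →* FreeGroup ι := FreeGroup.lift (fun j => if j = i then (of j)⁻¹ else of j)
  have hff : f.comp f = MonoidHom.id _ := by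
    ext j
    simp only [f, MonoidHom.comp_apply, FreeGroup.lift_apply_of, MonoidHom.id_apply]
    split_ifs with h
    · subst h; simp
    · simp [h]
  let e : FreeGroup ι ≃* FreeGroup ι := MonoidHom.toMulEquiv f f hff hff
  refine ⟨ι, ⟨b.repr.trans e⟩, i, ?_⟩
  change (b.repr.trans e).symm (of i) = (b i)⁻¹
  rw [MulEquiv.symm_trans_apply]
  have : e.symm (of i) = (of i)⁻¹ := by
    change f (of i) = _
    simp [f]
  rw [this, _root_.map_inv]
  rfl

theorem isCyclicallyReduced_invRev {L : List (α × Bool)} (h : IsCyclicallyReduced L) :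
    IsCyclicallyReduced (invRev L) := by
  refine ⟨isReduced_invRev h.1, ?_⟩
  intro a ha b hb hab
  unfold invRev at ha hb
  rw [List.getLast?_reverse, List.head?_map] at ha
  rw [List.head?_reverse, List.getLast?_map] at hb
  simp only [Option.mem_def, Option.map_eq_some_iff] at ha hb
  obtain ⟨a', ha', rfl⟩ := ha
  obtain ⟨b', hb', rfl⟩ := hb
  have := h.2 b' hb' a' ha' hab.symm
  simp [this]

/-- No long windows in the powers of a cyclically reduced primitive element. -/
theorem noWin_pow [Finite α] [Nontrivial α] {V : List (α × Bool)} {L₀ : ℕ}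
    (hwin : ∀ w, w <:+: V → L₀ ≤ w.length → ∀ i j : α, [(i, true), (j, true)] <:+: w)
    {c : FreeGroup α} (hc : IsCyclicallyReduced c.toWord) (hp : IsPrimitive c) (n : ℕ) :
    NoWin V L₀ (c ^ n) := by
  intro s w hw hwV
  by_contra hcon
  push Not at hcon
  cases s with
  | true =>
    refine block hc (fun i j => ⟨n, ?_⟩) hp
    rw [← toWord_pow_of_cyc hc]
    exact (hwin w hwV hcon i j).trans hw
  | false =>
    have hc' : IsCyclicallyReduced (c⁻¹).toWord := by
      rw [toWord_inv]; exact isCyclicallyReduced_invRev hc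
    refine block hc' (fun i j => ⟨n, ?_⟩) (isPrimitive_inv hp)
    rw [← toWord_pow_of_cyc hc', inv_pow, toWord_inv]
    have h1 : ∀ {L L' : List (α × Bool)}, L <:+: L' → invRev L <:+: invRev L' := by
      rintro L L' ⟨X, Y, rfl⟩
      exact ⟨invRev Y, invRev X, by simp [invRev_append]⟩
    have h2 : invRev w <:+: V := by
      have := h1 hwV
      rwa [invRev_Vw] at this
    refine (hwin (invRev w) h2 (by rwa [invRev_length]) i j).trans (h1 hw)

theorem exists_list_of_closure {G : Type*} [Group G] {S : Set G} (hS : Subgroup.closure S = ⊤)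
    (x : G) : ∃ l : List G, (∀ y ∈ l, y ∈ S ∨ y⁻¹ ∈ S) ∧ l.prod = x := by
  have hx : x ∈ (Subgroup.closure S).toSubmonoid := by rw [hS]; trivial
  rw [Subgroup.closure_toSubmonoid] at hx
  obtain ⟨l, h1, h2⟩ := Submonoid.exists_list_of_mem_closure hx
  refine ⟨l, fun y hy => ?_, h2⟩
  rcases h1 y hy with h | h
  · exact Or.inl h
  · exact Or.inr h

theorem IsPrimitive.ne_one {α : Type} {c : FreeGroup α} (hc : IsPrimitive c) : c ≠ 1 := by
  obtain ⟨ι, b, i, rfl⟩ := hc
  intro h
  have h1 : b.repr (b i) = of i := b.repr_apply_coe i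
  rw [h, _root_.map_one] at h1
  exact FreeGroup.of_ne_one i h1.symm

theorem IsPrimitive.pow_ne_one {α : Type} {c : FreeGroup α} (hc : IsPrimitive c) {n : ℕ}
    (hn : n ≠ 0) : c ^ n ≠ 1 := by
  intro h
  exact hc.ne_one ((pow_eq_one_iff_left hn).1 h)

theorem prod_flatten_replicate {G : Type*} [Group G] (W : List G) (n : ℕ) :
    ((List.replicate n W).flatten).prod = W.prod ^ n := by
  induction n with
  | zero => simp
  | succ n ih => rw [List.replicate_succ, List.flatten_cons, List.prod_append, ih, pow_succ']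

/-- weights -/
def wt (k lam : ℕ) (x : Fin k × Bool) : ℤ := (lam : ℤ) * (2 * (x.1.val : ℤ) + if x.2 then 1 else 0)

theorem wt_hyp (k lam : ℕ) (hlam : 1 ≤ lam) : WHyp (wt k lam) lam ((lam : ℤ) * (2 * k)) where
  lam_pos := by exact_mod_cast hlam
  N_nonneg := by positivity
  sep := by
    rintro ⟨i, b⟩ ⟨j, b'⟩ hne
    unfold wt
    rw [← mul_sub, abs_mul, abs_of_nonneg (by positivity : (0 : ℤ) ≤ lam)]
    have h1 : (1 : ℤ) ≤ |(2 * ((i : ℕ) : ℤ) + if b then 1 else 0) -
        (2 * ((j : ℕ) : ℤ) + if b' then 1 else 0)| := by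
      apply Int.one_le_abs
      intro h0
      apply hne
      have hij : i = j ∧ b = b' := by
        cases b <;> cases b' <;> simp at h0 ⊢ <;> omega
      rw [hij.1, hij.2]
    nlinarith [(by positivity : (0 : ℤ) ≤ lam)]
  bd := by
    rintro ⟨i, b⟩
    unfold wt
    rw [abs_of_nonneg (by positivity)]
    apply mul_le_mul_of_nonneg_left _ (by positivity)
    have := i.2
    simp only
    split_ifs <;> omega

/-- The new generating sets: conjugacy lengths of primitive elements are multiplied by at least
`lam + 1`. -/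
theorem exists_gens (k : ℕ) (hk : 2 ≤ k) (lam : ℕ) (hlam : 1 ≤ lam) :
    ∃ S : Set (FreeGroup (Fin k)), S.Finite ∧ Subgroup.closure S = ⊤ ∧
      ∀ c : FreeGroup (Fin k), IsCyclicallyReduced c.toWord → IsPrimitive c →
        ∀ (t : FreeGroup (Fin k)) (W : List (FreeGroup (Fin k))),
          (∀ x ∈ W, x ∈ S ∨ x⁻¹ ∈ S) → W.prod = t * c * t⁻¹ →
          (lam + 1) * c.toWord.length ≤ W.length := by
  have : Nontrivial (Fin k) := Fin.nontrivial_iff_two_le.2 hk
  set N : ℤ := (lam : ℤ) * (2 * k) with hN
  have hw := wt_hyp k lam hlam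
  rw [← hN] at hw
  have hN0 : 0 ≤ N := hw.N_nonneg
  obtain ⟨V, L₀, p, b₀, hV, hlen, hwin⟩ := exists_word (α := Fin k) (10 * (N.toNat + 1))
  have hM : (b₀ : ℤ) * (2 * N + 1) + 4 * N + 1 ≤ ((V.length : ℤ) - b₀ - 2) * (lam + 1) := by
    have h1 : (b₀ : ℤ) * (10 * (N + 1)) + 10 * (N + 1) ≤ V.length := by
      have : ((N.toNat : ℕ) : ℤ) = N := Int.toNat_of_nonneg hN0
      rw [← this]
      exact_mod_cast hlen
    have h2 : (0 : ℤ) ≤ b₀ := by positivity
    have h3 : (0 : ℤ) ≤ b₀ * N := mul_nonneg h2 hN0
    have h4 : (0 : ℤ) ≤ (V.length : ℤ) - b₀ - 2 := by nlinarith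
    have h5 : (0 : ℤ) ≤ (lam : ℤ) := by positivity
    have h6 : ((V.length : ℤ) - b₀ - 2) ≤ ((V.length : ℤ) - b₀ - 2) * (lam + 1) := by nlinarith
    nlinarith
  set w := wt k lam with hwdef
  have hzinv : ∀ i b, (zlet V w (i, b))⁻¹ = zlet V w (i, !b) := by
    intro i b
    unfold zlet
    simp only [Bool.not_not]
    have : (mk [(i, b)])⁻¹ = (mk [(i, !b)] : FreeGroup (Fin k)) := by rw [inv_mk]; rfl
    rw [← this]
    group
  have htop : Subgroup.closure ({mk V} ∪ Set.range (fun i => zlet V w (i, true))) =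
      (⊤ : Subgroup (FreeGroup (Fin k))) := by
    rw [eq_top_iff, ← FreeGroup.closure_range_of, Subgroup.closure_le]
    rintro _ ⟨i, rfl⟩
    have hv : mk V ∈ Subgroup.closure ({mk V} ∪ Set.range (fun i => zlet V w (i, true))) :=
      Subgroup.subset_closure (Or.inl rfl)
    have hz : zlet V w (i, true) ∈
        Subgroup.closure ({mk V} ∪ Set.range (fun i => zlet V w (i, true))) :=
      Subgroup.subset_closure (Or.inr ⟨i, rfl⟩)
    have : (of i : FreeGroup (Fin k)) = (mk V) ^ (-(w (i, true))) * zlet V w (i, true) *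
        (mk V) ^ (w (i, false)) := by
      unfold zlet
      simp only [Bool.not_true]
      have : (of i : FreeGroup (Fin k)) = mk [(i, true)] := rfl
      rw [this]
      group
    rw [this]
    exact mul_mem (mul_mem (zpow_mem hv _) hz) (zpow_mem hv _)
  refine ⟨{mk V} ∪ Set.range (fun i => zlet V w (i, true)), ?_, htop, ?_⟩
  · exact (Set.finite_singleton _).union (Set.finite_range _)
  · intro c hc hp t W hW hprod
    have hcl : ∀ x : FreeGroup (Fin k), x ∈ ({mk V} ∪ Set.range (fun i => zlet V w (i, true)) :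
        Set (FreeGroup (Fin k))) ∨ x⁻¹ ∈ ({mk V} ∪ Set.range (fun i => zlet V w (i, true)) :
        Set (FreeGroup (Fin k))) → x = mk V ∨ x = (mk V)⁻¹ ∨ ∃ y, x = zlet V w y := by
      rintro x (h | h)
      · rcases h with h | ⟨i, h⟩
        · exact Or.inl h
        · exact Or.inr (Or.inr ⟨_, h.symm⟩)
      · rcases h with h | ⟨i, h⟩
        · right; left
          rw [← inv_inv x, show x⁻¹ = mk V from h]
        · right; right
          refine ⟨(i, false), ?_⟩
          rw [← inv_inv x, ← h, hzinv]
          rfl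
    -- words for the conjugator
    obtain ⟨Wt, hWt1, hWt2⟩ := exists_list_of_closure htop t
    obtain ⟨Wt', hWt'1, hWt'2⟩ := exists_list_of_closure htop t⁻¹
    have key : ∀ n : ℕ, 1 ≤ n → ((n * c.toWord.length : ℤ) - 1) * (lam + 1) + 1 - 2 * N ≤
        Wt'.length + n * W.length + Wt.length := by
      intro n hn
      have h1 := length_lower hV hw hM (noWin_pow hwin hc hp n) (hp.pow_ne_one (by omega)) (Wt' ++ ((List.replicate n W).flatten ++ Wt)) (by
          intro x hx
          apply hcl
          rw [List.mem_append, List.mem_append] at hx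
          rcases hx with hx | hx | hx
          · exact hWt'1 x hx
          · rw [List.mem_flatten] at hx
            obtain ⟨l, hl1, hl2⟩ := hx
            rw [List.mem_replicate] at hl1
            exact hW x (hl1.2 ▸ hl2)
          · exact hWt1 x hx) (by
          rw [List.prod_append, List.prod_append, hWt2, hWt'2, prod_flatten_replicate, hprod,
            conj_pow]
          group)
      rw [toWord_pow_of_cyc hc] at h1
      simp only [List.length_append, List.length_flatten, List.map_replicate,
        List.sum_replicate, smul_eq_mul] at h1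
      push_cast at h1 ⊢
      linarith
    by_contra hcon
    push Not at hcon
    set a : ℤ := Wt'.length + Wt.length + 2 * N + lam with ha
    have h2 := key (a.toNat + 1) (by omega)
    have h3 : ((a.toNat : ℕ) : ℤ) = a := Int.toNat_of_nonneg (by positivity)
    have hcon' : (W.length : ℤ) + 1 ≤ (lam + 1) * c.toWord.length := by exact_mod_cast hcon
    push_cast at h2
    rw [h3] at h2
    have ha0 : 0 ≤ a := by positivity
    nlinarith

end

end Pool.Agent.Lib.Pee92d8
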