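import Mathlib
import Pool.Agent.Lib.Pee92d8.Gen

set_option autoImplicit false

namespace Pool.Agent.Lib.Pee92d8

open FreeGroup List Filter
open scoped ENNReal Topology

section
variable {G : Type} [Group G]

theorem wordLen_spec {S : Set G} (hS : Subgroup.closure S = ⊤) (g : G) :
    ∃ W : List G, (∀ x ∈ W, x ∈ S ∨ x⁻¹ ∈ S) ∧ W.prod = g ∧ W.length = wordLen S g := by
  have hne : {n | ∃ W : List G, (∀ x ∈ W, x ∈ S ∨ x⁻¹ ∈ S) ∧ W.prod = g ∧ W.length = n}.Nonempty := by
    obtain ⟨W, h1, h2⟩ := exists_list_of_closure hS g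
    exact ⟨W.length, W, h1, h2, rfl⟩
  exact Nat.sInf_mem hne

theorem wordLen_le {S : Set G} {W : List G} (hW : ∀ x ∈ W, x ∈ S ∨ x⁻¹ ∈ S) :
    wordLen S W.prod ≤ W.length := Nat.sInf_le ⟨W, hW, rfl, rfl⟩

theorem conjLen_spec (S : Set G) (c : ConjClasses G) :
    ∃ h : G, ConjClasses.mk h = c ∧ wordLen S h = conjLen S c := by
  have hne : {n | ∃ h : G, ConjClasses.mk h = c ∧ wordLen S h = n}.Nonempty := by
    obtain ⟨h, rfl⟩ := ConjClasses.exists_rep c
    exact ⟨_, h, rfl, rfl⟩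
  exact Nat.sInf_mem hne

theorem wordLen_finite {S : Set G} (hfin : S.Finite) (hS : Subgroup.closure S = ⊤) (N : ℕ) :
    {g : G | wordLen S g = N}.Finite := by
  set T : Set G := {x | x ∈ S ∨ x⁻¹ ∈ S} with hT
  have hTfin : T.Finite := by
    have : T = S ∪ S⁻¹ := by ext x; simp [hT]
    rw [this]
    exact hfin.union hfin.inv
  have : Finite T := hTfin
  have h1 := List.finite_length_eq T N
  refine (h1.image (fun W => (W.map Subtype.val).prod)).subset ?_
  intro g hg
  obtain ⟨W, hW1, hW2, hW3⟩ := wordLen_spec hS g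
  refine ⟨W.attach.map (fun x => ⟨x.1, hW1 x.1 x.2⟩), ?_, ?_⟩
  · change List.length _ = N
    rw [List.length_map, List.length_attach, hW3]
    exact hg
  · simp only [List.map_map]
    have : (Subtype.val ∘ fun x : {x // x ∈ W} => (⟨x.1, hW1 x.1 x.2⟩ : T)) = Subtype.val := rfl
    rw [this, List.attach_map_subtype_val, hW2]

theorem conjLen_finite {S : Set G} (hfin : S.Finite) (hS : Subgroup.closure S = ⊤) (N : ℕ) :
    {c : ConjClasses G | conjLen S c = N}.Finite := by
  refine ((wordLen_finite hfin hS N).image ConjClasses.mk).subset ?_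
  intro c hc
  obtain ⟨h, h1, h2⟩ := conjLen_spec S c
  exact ⟨h, h2.trans hc, h1⟩

end

/-- the automorphism `x_j ↦ x_i ^ n x_j` -/
theorem isPrimitive_pow_mul {α : Type} {i j : α} (hij : i ≠ j) (n : ℕ) :
    IsPrimitive ((of i : FreeGroup α) ^ n * of j) := by
  classical
  let f : ℤ → (FreeGroup α →* FreeGroup α) := fun n =>
    FreeGroup.lift (fun l => if l = j then (of i) ^ n * of j else of l)
  have hf1 : ∀ n, f n (of i) = of i := by
    intro n; simp [f, hij]
  have hf2 : ∀ n, f n (of j) = (of i) ^ n * of j := by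
    intro n; simp [f]
  have hff : ∀ n : ℤ, (f n).comp (f (-n)) = MonoidHom.id _ := by
    intro n
    ext l
    rw [MonoidHom.comp_apply, MonoidHom.id_apply]
    by_cases h : l = j
    · subst h
      rw [hf2, _root_.map_mul, _root_.map_zpow, hf1, hf2]
      group
    · have : ∀ n, f n (of l) = of l := by intro n; simp [f, h]
      rw [this, this]
  let e : FreeGroup α ≃* FreeGroup α := MonoidHom.toMulEquiv (f n) (f (-n))
    (by have := hff (-n); rwa [neg_neg] at this) (hff n)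
  refine ⟨α, ⟨e.symm⟩, j, ?_⟩
  change e.symm.symm (of j) = _
  rw [MulEquiv.symm_symm]
  change f n (of j) = _
  rw [hf2, zpow_natCast]

theorem primClasses_infinite {k : ℕ} (hk : 2 ≤ k) :
    {c : ConjClasses (FreeGroup (Fin k)) | ∃ g, IsPrimitive g ∧ ConjClasses.mk g = c}.Infinite := by
  have : Nontrivial (Fin k) := Fin.nontrivial_iff_two_le.2 hk
  obtain ⟨i, j, hij⟩ := exists_pair_ne (Fin k)
  let φ : FreeGroup (Fin k) →* Multiplicative ℤ :=
    FreeGroup.lift (fun l => if l = i then Multiplicative.ofAdd 1 else 1)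
  have hφ : ∀ n : ℕ, φ ((of i) ^ n * of j) = Multiplicative.ofAdd (n : ℤ) := by
    intro n
    rw [_root_.map_mul, _root_.map_pow]
    simp only [φ, FreeGroup.lift_apply_of, if_true, if_neg hij.symm, mul_one]
    rw [← ofAdd_nsmul]
    simp
  refine Set.infinite_of_injective_forall_mem
    (f := fun n : ℕ => ConjClasses.mk ((of i : FreeGroup (Fin k)) ^ n * of j)) ?_ ?_
  · intro m n hmn
    have h1 : IsConj ((of i : FreeGroup (Fin k)) ^ m * of j) ((of i) ^ n * of j) :=
      ConjClasses.mk_eq_mk_iff_isConj.1 hmn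
    have h2 := isConj_iff_eq.1 (MonoidHom.map_isConj φ h1)
    rw [hφ, hφ] at h2
    have := Multiplicative.ofAdd.injective h2
    exact_mod_cast this
  · intro n
    exact ⟨_, isPrimitive_pow_mul hij n, rfl⟩

theorem one_le_gamma {k : ℕ} (hk : 2 ≤ k) {S : Set (FreeGroup (Fin k))} (hfin : S.Finite)
    (hS : Subgroup.closure S = ⊤) : 1 ≤ gamma k S := by
  unfold gamma
  apply Filter.le_limsup_of_frequently_le'
  have h1 : ∃ᶠ N in atTop, (primClasses k S N).Nonempty := by
    intro hcon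
    rw [eventually_atTop] at hcon
    obtain ⟨N₀, hN₀⟩ := hcon
    apply primClasses_infinite hk
    refine Set.Finite.subset (Set.Finite.biUnion (Set.finite_lt_nat N₀)
      (fun N _ => conjLen_finite hfin hS N)) ?_
    rintro c hc
    rw [Set.mem_iUnion₂]
    refine ⟨conjLen S c, ?_, rfl⟩
    by_contra hlt
    have h2 : N₀ ≤ conjLen S c := not_lt.1 hlt
    exact hN₀ _ h2 ⟨c, hc, rfl⟩
  refine (h1.and_eventually (eventually_gt_atTop 0)).mono ?_
  rintro N ⟨hN, hN0⟩
  have h2 : (1 : ℕ∞) ≤ (primClasses k S N).encard := Set.one_le_encard_iff_nonempty.2 hN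
  have h3 : (1 : ℝ≥0∞) ≤ ((primClasses k S N).encard : ℝ≥0∞) := by exact_mod_cast h2
  have h4 : (0 : ℝ) < N := by exact_mod_cast hN0
  exact ENNReal.one_le_rpow h3 (by positivity)

/-- Number of reduced words of bounded length. -/
theorem ball_encard (k m : ℕ) :
    {g : FreeGroup (Fin k) | g.toWord.length ≤ m}.encard ≤ ((2 * k + 1 : ℕ) : ℕ∞) ^ m := by
  have h1 : Set.InjOn (fun (g : FreeGroup (Fin k)) (t : Fin m) => g.toWord[(t : ℕ)]?)
      {g : FreeGroup (Fin k) | g.toWord.length ≤ m} := by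
    intro g hg g' hg' h
    apply toWord_injective
    apply List.ext_getElem?
    intro t
    rcases lt_or_ge t m with ht | ht
    · exact congrFun h ⟨t, ht⟩
    · rw [List.getElem?_eq_none (le_trans hg ht), List.getElem?_eq_none (le_trans hg' ht)]
  rw [← h1.encard_image]
  refine Set.encard_le_card.trans ?_
  rw [ENat.card_eq_coe_fintype_card]
  simp only [Fintype.card_pi, Fintype.card_option, Fintype.card_prod, Fintype.card_fin,
    Fintype.card_bool, Finset.prod_const, Finset.card_univ]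
  rw [mul_comm k 2]
  push_cast
  exact le_rfl

theorem IsPrimitive.conj {α : Type} {g : FreeGroup α} (hg : IsPrimitive g) (t : FreeGroup α) :
    IsPrimitive (t * g * t⁻¹) := by
  obtain ⟨ι, b, i, rfl⟩ := hg
  refine ⟨ι, ⟨(MulAut.conj t).symm.trans b.repr⟩, i, ?_⟩
  change ((MulAut.conj t).symm.trans b.repr).symm (of i) = _
  rw [MulEquiv.symm_trans_apply]
  rfl

/-- Every primitive class contains a cyclically reduced primitive element. -/
theorem exists_cyc {α : Type} [DecidableEq α] (g : FreeGroup α) :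
    ∃ t c : FreeGroup α, g = t * c * t⁻¹ ∧ IsCyclicallyReduced c.toWord := by
  refine ⟨mk (reduceCyclically.conjugator g.toWord), mk (reduceCyclically g.toWord), ?_, ?_⟩
  · rw [inv_mk, mul_mk, mul_mk, reduceCyclically.conj_conjugator_reduceCyclically, mk_toWord]
  · have := reduceCyclically.isCyclicallyReduced (isReduced_toWord (x := g))
    rwa [toWord_mk_of_isReduced this.1]

theorem gamma_le {k : ℕ} (hk : 2 ≤ k) (lam : ℕ) (hlam : 1 ≤ lam) :
    ∃ S : Set (FreeGroup (Fin k)), S.Finite ∧ Subgroup.closure S = ⊤ ∧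
      gamma k S ≤ ((2 * k + 1 : ℕ) : ℝ≥0∞) ^ ((1 : ℝ) / (lam + 1)) := by
  obtain ⟨S, hfin, hS, hlow⟩ := exists_gens k hk lam hlam
  refine ⟨S, hfin, hS, ?_⟩
  have hcount : ∀ N, (primClasses k S N).encard ≤ ((2 * k + 1 : ℕ) : ℕ∞) ^ (N / (lam + 1)) := by
    intro N
    refine le_trans ?_ (ball_encard k (N / (lam + 1)))
    refine le_trans (Set.encard_le_encard ?_) (Set.encard_image_le ConjClasses.mk _)
    rintro c ⟨⟨g, hg, rfl⟩, hN⟩
    obtain ⟨h, h1, h2⟩ := conjLen_spec S (ConjClasses.mk g)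
    obtain ⟨t, c, hc1, hc2⟩ := exists_cyc g
    have hcp : IsPrimitive c := by
      have := hg.conj t⁻¹
      rw [hc1] at this
      have h3 : t⁻¹ * (t * c * t⁻¹) * t⁻¹⁻¹ = c := by group
      rwa [h3] at this
    have hcg : IsConj c h := by
      have h3 : IsConj h g := ConjClasses.mk_eq_mk_iff_isConj.1 h1
      have h4 : IsConj c g := isConj_iff.2 ⟨t, hc1.symm⟩
      exact h4.trans h3.symm
    obtain ⟨t', ht'⟩ := isConj_iff.1 hcg
    obtain ⟨W, hW1, hW2, hW3⟩ := wordLen_spec hS h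
    have h5 := hlow c hc2 hcp t' W hW1 (hW2.trans ht'.symm)
    rw [hW3, h2, hN] at h5
    refine ⟨c, ?_, ?_⟩
    · rw [Set.mem_ofPred_eq, Nat.le_div_iff_mul_le (by omega)]
      rwa [mul_comm]
    · exact ConjClasses.mk_eq_mk_iff_isConj.2 (isConj_iff.2 ⟨t, hc1.symm⟩)
  unfold gamma
  refine Filter.limsup_le_of_le (by isBoundedDefault) ?_
  filter_upwards [eventually_gt_atTop 0] with N hN
  have hN' : (0 : ℝ) < N := by exact_mod_cast hN
  have h1 : ((primClasses k S N).encard : ℝ≥0∞) ≤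
      ((2 * k + 1 : ℕ) : ℝ≥0∞) ^ ((N : ℝ) / (lam + 1)) := by
    have h2 : ((primClasses k S N).encard : ℝ≥0∞) ≤
        ((((2 * k + 1 : ℕ) : ℕ∞) ^ (N / (lam + 1)) : ℕ∞) : ℝ≥0∞) := by
      exact_mod_cast hcount N
    refine h2.trans ?_
    have h3 : ((((2 * k + 1 : ℕ) : ℕ∞) ^ (N / (lam + 1)) : ℕ∞) : ℝ≥0∞) =
        ((2 * k + 1 : ℕ) : ℝ≥0∞) ^ (((N / (lam + 1) : ℕ) : ℝ)) := by
      rw [ENNReal.rpow_natCast]
      push_cast
      rfl
    rw [h3]
    apply ENNReal.rpow_le_rpow_of_exponent_le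
    · exact_mod_cast (by omega : 1 ≤ 2 * k + 1)
    · have := @Nat.cast_div_le ℝ _ _ _ N (lam + 1)
      push_cast at this
      exact this
  calc ((primClasses k S N).encard : ℝ≥0∞) ^ ((1 : ℝ) / N)
      ≤ (((2 * k + 1 : ℕ) : ℝ≥0∞) ^ ((N : ℝ) / (lam + 1))) ^ ((1 : ℝ) / N) :=
        ENNReal.rpow_le_rpow h1 (by positivity)
    _ = ((2 * k + 1 : ℕ) : ℝ≥0∞) ^ ((1 : ℝ) / (lam + 1)) := by
        rw [← ENNReal.rpow_mul]
        congr 1
        field_simp

theorem tendsto_root (a : ℕ) (ha : 1 ≤ a) :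
    Tendsto (fun n : ℕ => ((a : ℕ) : ℝ≥0∞) ^ ((1 : ℝ) / ((n + 1 : ℕ) + 1))) atTop (𝓝 1) := by
  have h1 : Tendsto (fun n : ℕ => (a : ℝ) ^ ((1 : ℝ) / ((n + 1 : ℕ) + 1))) atTop (𝓝 1) := by
    have h2 : Tendsto (fun n : ℕ => (1 : ℝ) / ((n + 1 : ℕ) + 1)) atTop (𝓝 0) := by
      have := tendsto_one_div_add_atTop_nhds_zero_nat (𝕜 := ℝ)
      exact this.comp (tendsto_add_atTop_nat 1)
    have h3 := (tendsto_const_nhds (x := (a : ℝ))).rpow h2 (Or.inl (by positivity))
    rwa [Real.rpow_zero] at h3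
  have h4 := ENNReal.tendsto_ofReal h1
  rw [ENNReal.ofReal_one] at h4
  refine h4.congr (fun n => ?_)
  rw [← ENNReal.ofReal_rpow_of_nonneg (by positivity) (by positivity), ENNReal.ofReal_natCast]

theorem iInf_gamma {k : ℕ} (hk : 2 ≤ k) :
    ⨅ (S : Set (FreeGroup (Fin k))) (_ : S.Finite) (_ : Subgroup.closure S = ⊤), gamma k S = 1 := by
  apply le_antisymm
  · refine ge_of_tendsto' (tendsto_root (2 * k + 1) (by omega)) (fun n => ?_)
    obtain ⟨S, hfin, hS, hle⟩ := gamma_le hk (n + 1) (by omega)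
    refine le_trans (iInf_le_of_le S (iInf_le_of_le hfin (iInf_le _ hS))) ?_
    exact hle
  · refine le_iInf fun S => le_iInf fun hfin => le_iInf fun hS => one_le_gamma hk hfin hS

end Pool.Agent.Lib.Pee92d8
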